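import Pool.Agent.H815.AR.Defs

/-!
# Carriers: the homology of a complex injects in the homology of a flag complex which is carried by it
-/

set_option autoImplicit false
set_option linter.unusedSectionVars false

namespace Pool.Agent.H815.AR

open Finset Pool.Agent.H815.TW

section

variable {X : Type} [Fintype X] [DecidableEq X]

/-- the boundary modulo 2 -/
def bd (f : Finset X → ZMod 2) : Finset X → ZMod 2 := fun ρ => ∑ v ∈ ρᶜ, f (insert v ρ)

theorem bd_add (f g : Finset X → ZMod 2) : bd (f + g) = bd f + bd g := by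
  funext ρ
  exact sum_add_distrib

theorem bd_sum {ι : Type} (s : Finset ι) (f : ι → Finset X → ZMod 2) : bd (∑ a ∈ s, f a) = ∑ a ∈ s, bd (f a) := by
  classical
  induction s using Finset.induction_on with
  | empty =>
    rw [sum_empty, sum_empty]
    funext ρ
    exact sum_eq_zero fun _ _ => rfl
  | insert a s ha ih => rw [sum_insert ha, sum_insert ha, bd_add, ih]

theorem bd_smul (a : ZMod 2) (f : Finset X → ZMod 2) : bd (a • f) = a • bd f := by
  funext ρ
  show ∑ v ∈ ρᶜ, a * f (insert v ρ) = a * ∑ v ∈ ρᶜ, f (insert v ρ)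
  rw [mul_sum]

/-- the indicator -/
def dl (σ : Finset X) : Finset X → ZMod 2 := fun τ => if τ = σ then 1 else 0

/-- the cone -/
def cone (c : X) (f : Finset X → ZMod 2) : Finset X → ZMod 2 := fun N => if c ∈ N then f (N.erase c) else 0

theorem two_zero (a : ZMod 2) : a + a = 0 := CharTwo.add_self_eq_zero a

theorem bd_cone (c : X) (f : Finset X → ZMod 2) : bd (cone c f) = f + cone c (bd f) := by
  funext N
  rw [Pi.add_apply]
  unfold cone bd
  by_cases hc : c ∈ N
  · rw [if_pos hc]
    have h1 : (N.erase c)ᶜ = insert c Nᶜ := by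
      ext v
      rw [mem_compl, mem_erase, mem_insert, mem_compl]
      tauto
    rw [h1, sum_insert (by rw [mem_compl]; exact fun h => h hc), insert_erase hc, ← add_assoc, two_zero, zero_add]
    refine sum_congr rfl fun v hv => ?_
    have hvc : v ≠ c := fun h => (mem_compl.1 hv) (h ▸ hc)
    show (if c ∈ insert v N then f ((insert v N).erase c) else 0) = _
    rw [if_pos (mem_insert_of_mem hc), erase_insert_of_ne hvc]
  · rw [if_neg hc, add_zero, sum_eq_single c]
    · show (if c ∈ insert c N then f ((insert c N).erase c) else 0) = _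
      rw [if_pos (mem_insert_self _ _), erase_insert hc]
    · intro v _ hv
      show (if c ∈ insert v N then f ((insert v N).erase c) else 0) = _
      rw [if_neg]
      rw [mem_insert, not_or]
      exact ⟨Ne.symm hv, hc⟩
    · intro h
      exact absurd (mem_compl.2 hc) h

/-- symmetric sums vanish -/
theorem sum_erase_erase {Y : Type} [AddCommGroup Y] (h2 : ∀ y : Y, y + y = 0) (σ : Finset X) (F : Finset X → Y) :
    ∑ v ∈ σ, ∑ w ∈ σ.erase v, F ((σ.erase v).erase w) = 0 := by
  rw [sum_sigma']
  refine sum_involution (fun x _ => ⟨x.2, x.1⟩) ?_ ?_ ?_ ?_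
  · rintro ⟨v, w⟩ _
    show F ((σ.erase v).erase w) + F ((σ.erase w).erase v) = 0
    rw [erase_right_comm, h2]
  · rintro ⟨v, w⟩ h _ he
    have h1 : w = v := congrArg Sigma.fst he
    rw [mem_sigma] at h
    exact (mem_erase.1 h.2).1 h1
  · rintro ⟨v, w⟩ h
    rw [mem_sigma] at h ⊢
    exact ⟨(mem_erase.1 h.2).2, mem_erase.2 ⟨(mem_erase.1 h.2).1.symm, h.1⟩⟩
  · rintro ⟨v, w⟩ _
    rfl

end

section

variable {B X : Type} [Fintype B] [DecidableEq B] [Fintype X] [DecidableEq X]

/-- the subdivision of a simplex -/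
noncomputable def Sd (c : Finset B → X) (σ : Finset B) : Finset X → ZMod 2 :=
  if σ = ∅ then dl ∅ else cone (c σ) (∑ v ∈ σ.attach, Sd c (σ.erase v.1))
termination_by σ.card
decreasing_by exact card_erase_lt_of_mem v.2

variable (c : Finset B → X)

theorem Sd_empty : Sd c ∅ = dl ∅ := by
  rw [Sd, if_pos rfl]

theorem Sd_ne {σ : Finset B} (h : σ ≠ ∅) : Sd c σ = cone (c σ) (∑ v ∈ σ, Sd c (σ.erase v)) := by
  rw [Sd, if_neg h, sum_attach σ fun v => Sd c (σ.erase v)]

theorem bd_Sd (σ : Finset B) : bd (Sd c σ) = ∑ v ∈ σ, Sd c (σ.erase v) := by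
  induction hn : σ.card using Nat.strong_induction_on generalizing σ with
  | _ n ih =>
  by_cases h : σ = ∅
  · subst h
    rw [Sd_empty, sum_empty]
    funext ρ
    refine sum_eq_zero fun v _ => ?_
    unfold dl
    rw [if_neg (insert_ne_empty _ _)]
  · rw [Sd_ne c h, bd_cone, bd_sum]
    have h1 : ∑ v ∈ σ, bd (Sd c (σ.erase v)) = 0 := by
      rw [← sum_erase_erase (Y := Finset X → ZMod 2) (fun y => by funext N; exact two_zero _) σ (fun τ => Sd c τ)]
      refine sum_congr rfl fun v hv => ?_
      exact ih _ (by rw [← hn]; exact card_erase_lt_of_mem hv) _ rfl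
    rw [h1]
    funext N
    rw [Pi.add_apply]
    unfold cone
    split_ifs <;> simp

/-- the push forward along a map of the vertices -/
def push (π : X → B) (f : Finset X → ZMod 2) : Finset B → ZMod 2 := fun τ =>
  ∑ N : Finset X, if N.image π = τ ∧ N.card = τ.card then f N else 0

theorem push_sum {ι : Type} (π : X → B) (s : Finset ι) (f : ι → Finset X → ZMod 2) :
    push π (∑ a ∈ s, f a) = ∑ a ∈ s, push π (f a) := by
  funext τ
  rw [Finset.sum_apply]
  unfold push
  rw [sum_comm]
  refine sum_congr rfl fun N _ => ?_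
  by_cases h : N.image π = τ ∧ N.card = τ.card
  · rw [if_pos h, Finset.sum_apply]
    exact sum_congr rfl fun a _ => by rw [if_pos h]
  · rw [if_neg h]
    exact (sum_eq_zero fun a _ => by rw [if_neg h]).symm

theorem push_smul (π : X → B) (a : ZMod 2) (f : Finset X → ZMod 2) : push π (a • f) = a • push π f := by
  funext τ
  show ∑ N : Finset X, (if N.image π = τ ∧ N.card = τ.card then a * f N else 0) =
    a * ∑ N : Finset X, if N.image π = τ ∧ N.card = τ.card then f N else 0
  rw [mul_sum]
  refine sum_congr rfl fun N _ => ?_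
  split_ifs <;> simp

/-- the number of faces over `τ` -/
theorem count (π : X → B) (M : Finset X) (τ : Finset B) :
    ∑ v ∈ M, (if (M.erase v).image π = τ ∧ (M.erase v).card = τ.card then (1 : ZMod 2) else 0) =
      ∑ u ∈ τᶜ, if M.image π = insert u τ ∧ M.card = (insert u τ).card then (1 : ZMod 2) else 0 := by
  by_cases hc : M.card = τ.card + 1
  swap
  · rw [sum_eq_zero, sum_eq_zero]
    · intro u hu
      rw [card_insert_of_notMem (mem_compl.1 hu), if_neg fun h => hc h.2]
    · intro v hv
      rw [card_erase_of_mem hv, if_neg]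
      have : 0 < M.card := card_pos.2 ⟨v, hv⟩
      omega
  have hL : ∀ v ∈ M, (if (M.erase v).image π = τ ∧ (M.erase v).card = τ.card then (1 : ZMod 2) else 0) =
      if (M.erase v).image π = τ then 1 else 0 := by
    intro v hv
    rw [card_erase_of_mem hv]
    by_cases h : (M.erase v).image π = τ
    · rw [if_pos h, if_pos ⟨h, by omega⟩]
    · rw [if_neg h, if_neg fun h2 => h h2.1]
  have hR : ∀ u ∈ τᶜ, (if M.image π = insert u τ ∧ M.card = (insert u τ).card then (1 : ZMod 2) else 0) =
      if M.image π = insert u τ then 1 else 0 := by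
    intro u hu
    rw [card_insert_of_notMem (mem_compl.1 hu)]
    by_cases h : M.image π = insert u τ
    · rw [if_pos h, if_pos ⟨h, by omega⟩]
    · rw [if_neg h, if_neg fun h2 => h h2.1]
  rw [sum_congr rfl hL, sum_congr rfl hR]
  by_cases hinj : Set.InjOn π M
  · have hcard : (M.image π).card = τ.card + 1 := by rw [card_image_of_injOn hinj, hc]
    by_cases hex : ∃ u ∉ τ, M.image π = insert u τ
    · obtain ⟨u, hu, hI⟩ := hex
      have hum : u ∈ M.image π := by rw [hI]; exact mem_insert_self _ _
      obtain ⟨v, hv, hvu⟩ := mem_image.1 hum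
      have e1 : ∀ x ∈ M, (M.erase x).image π = (M.image π).erase (π x) := by
        intro x hx
        ext b
        rw [mem_image, mem_erase, mem_image]
        constructor
        · rintro ⟨y, hy, rfl⟩
          exact ⟨fun h => (mem_erase.1 hy).1 (hinj (mem_of_mem_erase hy) hx h), y, mem_of_mem_erase hy, rfl⟩
        · rintro ⟨h1, y, hy, rfl⟩
          exact ⟨y, mem_erase.2 ⟨fun h => h1 (by rw [h]), hy⟩, rfl⟩
      rw [sum_eq_single_of_mem v hv, sum_eq_single_of_mem u (mem_compl.2 hu)]
      · rw [if_pos hI, if_pos]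
        rw [e1 v hv, hI, hvu, erase_insert hu]
      · intro u' hu' hne
        rw [if_neg]
        intro h
        rw [hI] at h
        have : u' ∈ insert u τ := by rw [h]; exact mem_insert_self _ _
        rcases mem_insert.1 this with h1 | h1
        · exact hne h1
        · exact (mem_compl.1 hu') h1
      · intro x hx hne
        rw [if_neg]
        intro h
        rw [e1 x hx, hI] at h
        have h2 : u ∈ (insert u τ).erase (π x) :=
          mem_erase.2 ⟨fun h3 => hne (hinj hx hv (by rw [hvu, h3])), mem_insert_self _ _⟩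
        rw [h] at h2
        exact hu h2
    · push Not at hex
      rw [sum_eq_zero, sum_eq_zero]
      · intro u hu
        rw [if_neg (hex u (mem_compl.1 hu))]
      · intro v hv
        rw [if_neg]
        intro h
        refine hex (π v) (fun h2 => ?_) ?_
        · rw [← h] at h2
          obtain ⟨y, hy, hyv⟩ := mem_image.1 h2
          exact (mem_erase.1 hy).1 (hinj (mem_of_mem_erase hy) hv hyv)
        · rw [← h, ← image_insert, insert_erase hv]
  · -- two vertices with the same image
    have h0 : ∃ a ∈ M, ∃ b ∈ M, π a = π b ∧ a ≠ b := by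
      unfold Set.InjOn at hinj
      push Not at hinj
      obtain ⟨a, ha, b, hb, h1, h2⟩ := hinj
      exact ⟨a, ha, b, hb, h1, h2⟩
    obtain ⟨a, ha, b, hb, hab, hne⟩ := h0
    have hIa : (M.erase a).image π = M.image π := by
      apply Subset.antisymm (image_subset_image (erase_subset _ _))
      intro x hx
      obtain ⟨y, hy, rfl⟩ := mem_image.1 hx
      by_cases h : y = a
      · rw [h, hab]
        exact mem_image_of_mem _ (mem_erase.2 ⟨hne.symm, hb⟩)
      · exact mem_image_of_mem _ (mem_erase.2 ⟨h, hy⟩)
    have hIb : (M.erase b).image π = M.image π := by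
      apply Subset.antisymm (image_subset_image (erase_subset _ _))
      intro x hx
      obtain ⟨y, hy, rfl⟩ := mem_image.1 hx
      by_cases h : y = b
      · rw [h, ← hab]
        exact mem_image_of_mem _ (mem_erase.2 ⟨hne, ha⟩)
      · exact mem_image_of_mem _ (mem_erase.2 ⟨h, hy⟩)
    have hcI : (M.image π).card ≤ τ.card := by
      rw [← hIa]
      have := card_image_le (s := M.erase a) (f := π)
      rw [card_erase_of_mem ha] at this
      omega
    have hR0 : ∀ u ∈ τᶜ, (if M.image π = insert u τ then (1 : ZMod 2) else 0) = 0 := by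
      intro u hu
      rw [if_neg]
      intro h
      rw [h, card_insert_of_notMem (mem_compl.1 hu)] at hcI
      omega
    rw [sum_congr rfl hR0, sum_const_zero]
    by_cases hI : M.image π = τ
    · -- injective outside `a`
      have hinj2 : Set.InjOn π (M.erase a : Finset X) := by
        rw [← card_image_iff, hIa, card_erase_of_mem ha, hI]
        omega
      have h3 : ∀ v ∈ M, v ≠ a → v ≠ b → (M.erase v).image π ≠ τ := by
        intro v hv hva hvb h
        have h4 : π v ∈ (M.erase v).image π := by rw [h, ← hI]; exact mem_image_of_mem _ hv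
        obtain ⟨y, hy, hyv⟩ := mem_image.1 h4
        rw [mem_erase] at hy
        by_cases hya : y = a
        · subst hya
          rw [hab] at hyv
          exact hvb (hinj2 (mem_coe.2 (mem_erase.2 ⟨hva, hv⟩)) (mem_coe.2 (mem_erase.2 ⟨hne.symm, hb⟩)) hyv.symm)
        · exact hy.1 (hinj2 (mem_coe.2 (mem_erase.2 ⟨hya, hy.2⟩)) (mem_coe.2 (mem_erase.2 ⟨hva, hv⟩)) hyv)
      rw [← add_sum_erase M _ ha, ← add_sum_erase (M.erase a) _ (mem_erase.2 ⟨hne.symm, hb⟩), if_pos (hIa.trans hI),
        if_pos (hIb.trans hI), sum_eq_zero]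
      · decide
      · intro v hv
        rw [mem_erase, mem_erase] at hv
        rw [if_neg (h3 v hv.2.2 hv.2.1 hv.1)]
    · refine sum_eq_zero fun v hv => ?_
      rw [if_neg]
      intro h
      have h4 : τ ⊆ M.image π := by rw [← h]; exact image_subset_image (erase_subset _ _)
      exact hI (eq_of_subset_of_card_le h4 hcI).symm

theorem push_bd (π : X → B) (f : Finset X → ZMod 2) : push π (bd f) = bd (push π f) := by
  funext τ
  -- the left side
  have hl : push π (bd f) τ = ∑ M : Finset X, f M *
      ∑ v ∈ M, (if (M.erase v).image π = τ ∧ (M.erase v).card = τ.card then (1 : ZMod 2) else 0) := by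
    have h1 : ∀ M : Finset X, f M *
        ∑ v ∈ M, (if (M.erase v).image π = τ ∧ (M.erase v).card = τ.card then (1 : ZMod 2) else 0) =
        ∑ v ∈ M, if (M.erase v).image π = τ ∧ (M.erase v).card = τ.card then f M else 0 := by
      intro M
      rw [mul_sum]
      exact sum_congr rfl fun v _ => by split_ifs <;> simp
    have h2 : ∀ N : Finset X, (if N.image π = τ ∧ N.card = τ.card then bd f N else 0) =
        ∑ v ∈ Nᶜ, if N.image π = τ ∧ N.card = τ.card then f (insert v N) else 0 := by
      intro N
      split_ifs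
      · rfl
      · rw [sum_const_zero]
    unfold push
    rw [sum_congr rfl fun M _ => h1 M, sum_congr rfl fun N _ => h2 N, sum_sigma', sum_sigma']
    refine sum_bij' (fun x _ => ⟨insert x.2 x.1, x.2⟩) (fun x _ => ⟨x.1.erase x.2, x.2⟩) ?_ ?_ ?_ ?_ ?_
    · rintro ⟨N, v⟩ h
      rw [mem_sigma] at h ⊢
      exact ⟨mem_univ _, mem_insert_self _ _⟩
    · rintro ⟨N, v⟩ h
      rw [mem_sigma] at h ⊢
      exact ⟨mem_univ _, mem_compl.2 (notMem_erase _ _)⟩
    · rintro ⟨N, v⟩ h
      rw [mem_sigma] at h
      show (⟨(insert v N).erase v, v⟩ : Σ _ : Finset X, X) = ⟨N, v⟩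
      rw [erase_insert (mem_compl.1 h.2)]
    · rintro ⟨N, v⟩ h
      rw [mem_sigma] at h
      show (⟨insert v (N.erase v), v⟩ : Σ _ : Finset X, X) = ⟨N, v⟩
      rw [insert_erase h.2]
    · rintro ⟨N, v⟩ h
      rw [mem_sigma] at h
      show _ = if ((insert v N).erase v).image π = τ ∧ ((insert v N).erase v).card = τ.card then f (insert v N) else 0
      rw [erase_insert (mem_compl.1 h.2)]
  -- the right side
  have hr : bd (push π f) τ = ∑ M : Finset X, f M *
      ∑ u ∈ τᶜ, if M.image π = insert u τ ∧ M.card = (insert u τ).card then (1 : ZMod 2) else 0 := by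
    unfold bd push
    rw [sum_comm]
    refine sum_congr rfl fun M _ => ?_
    rw [mul_sum]
    exact sum_congr rfl fun v _ => by split_ifs <;> simp
  rw [hl, hr]
  exact sum_congr rfl fun M _ => by rw [count]

end

end Pool.Agent.H815.AR
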