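import Pool.Agent.H815.TW.Defs
import Pool.Graph.R_seed8.Helper741.Alt

/-!
# Artin groups: definitions
-/

set_option autoImplicit false

namespace Pool.Agent.H815.AR

open Pool.Agent.Helper741 Pool.Agent.H815.TW

/-- The special subgroup of the Coxeter group of `M` which is generated by the simple reflections of `T` is finite. -/
def Sph {B : Type} (M : CoxeterMatrix B) (T : Finset B) : Prop :=
  (Subgroup.closure (M.simple '' (T : Set B)) : Set M.Group).Finite

/-- The simplicial complex with the simplices `K` (the empty one included) has no reduced homology modulo `2` in the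
degree `i - 1`: every cycle on the simplices with `i` vertices is a boundary. -/
def AcyC {B : Type} [Fintype B] [DecidableEq B] (K : Finset B → Prop) (i : ℕ) : Prop :=
  ∀ z : Finset B → ZMod 2, (∀ σ, z σ ≠ 0 → K σ ∧ σ.card = i) →
    (∀ ρ, ∑ v ∈ ρᶜ, z (insert v ρ) = 0) →
    ∃ w : Finset B → ZMod 2, (∀ σ, w σ ≠ 0 → K σ ∧ σ.card = i + 1) ∧
      ∀ ρ, ∑ v ∈ ρᶜ, w (insert v ρ) = z ρ

/-- The canonical homomorphism of the Artin group of `M` onto the Coxeter group of `M`; its kernel is the pure Artin
group. -/
def toCox {B : Type} (M : CoxeterMatrix B) : Artin M →* M.Group :=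
  Artin.lift M.simple fun i j =>
    alt_comm_of_pow (M.toCoxeterSystem.simple_mul_simple_self i) (M.toCoxeterSystem.simple_mul_simple_self j)
      (M.toCoxeterSystem.simple_mul_simple_pow i j)

end Pool.Agent.H815.AR
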