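import Pool.Agent.H815.AR.Gar

/-!
# The tori of an Artin group
-/

set_option autoImplicit false
set_option linter.unusedSectionVars false

namespace Pool.Agent.H815.AR

open Pool.Agent.Helper741 Pool.Agent.H815.TW

variable {B : Type} [Fintype B] [DecidableEq B] (M : CoxeterMatrix B)

/-- the irreducible spherical subsets -/
def IS : Type := {T : Finset B // Irr M T ∧ Sph M T}

noncomputable instance : Fintype (IS M) := by
  classical
  exact Fintype.ofInjective (fun T : IS M => (T.1 : Finset B)) Subtype.val_injective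

noncomputable instance : DecidableEq (IS M) := Classical.decEq _

/-- two irreducible spherical subsets are adjacent if one contains the other or if they are orthogonal -/
def LO : SimpleGraph (IS M) where
  Adj T U := T ≠ U ∧ (T.1 ⊆ U.1 ∨ U.1 ⊆ T.1 ∨ Orth M T.1 U.1)
  symm := ⟨fun T U h => ⟨h.1.symm, by
    rcases h.2 with h1 | h1 | h1
    · exact Or.inr (Or.inl h1)
    · exact Or.inl h1
    · exact Or.inr (Or.inr h1.symm)⟩⟩
  loopless := ⟨fun T h => h.1 rfl⟩

variable {M}

/-- the central element -/
noncomputable def zz (T : IS M) : Artin M := incA M T.1 (exists_central T.2.2).choose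

theorem zz_ker (T : IS M) : toCox M (zz T) = 1 := (exists_central T.2.2).choose_spec.2.1

theorem zz_pos (T : IS M) {i : B} (hi : i ∈ T.1) {w : M.Group} (hw : w ∈ (inc M T.1).range) :
    0 < (coc M (zz T)).v (w * M.simple i * w⁻¹) :=
  (exists_central T.2.2).choose_spec.2.2.1 i hi w hw

theorem zz_word (T : IS M) : ∃ ω : List T.1, zz T = incA M T.1 (ω.map (Artin.gen (sub M T.1))).prod := by
  obtain ⟨ω, h⟩ := (exists_central T.2.2).choose_spec.2.2.2
  exact ⟨ω, congrArg (incA M T.1) h⟩

theorem zz_comm_range (T : IS M) (y : Artin (sub M T.1)) : Commute (zz T) (incA M T.1 y) := by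
  have h := (Subgroup.mem_center_iff.1 (exists_central T.2.2).choose_spec.1) y
  unfold zz Commute SemiconjBy
  rw [← map_mul, ← map_mul, h]

theorem incA_mono {T U : Finset B} (h : T ⊆ U) (x : Artin (sub M T)) : ∃ y, incA M T x = incA M U y := by
  induction x using Artin.induction with
  | one => exact ⟨1, by rw [map_one, map_one]⟩
  | gen i => exact ⟨Artin.gen (sub M U) ⟨i, h i.2⟩, by rw [incA_gen, incA_gen]⟩
  | mul x y hx hy =>
    obtain ⟨a, ha⟩ := hx
    obtain ⟨b, hb⟩ := hy
    exact ⟨a * b, by rw [map_mul, map_mul, ha, hb]⟩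
  | inv x hx =>
    obtain ⟨a, ha⟩ := hx
    exact ⟨a⁻¹, by rw [map_inv, map_inv, ha]⟩

theorem orth_comm {T U : Finset B} (h : Orth M T U) (x : Artin (sub M T)) (y : Artin (sub M U)) :
    Commute (incA M T x) (incA M U y) := by
  induction x using Artin.induction with
  | one => rw [map_one]; exact Commute.one_left _
  | gen i =>
    rw [incA_gen]
    induction y using Artin.induction with
    | one => rw [map_one]; exact Commute.one_right _
    | gen j =>
      rw [incA_gen]
      have h1 := Artin.rel (M := M) (i : B) (j : B)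
      rw [h i i.2 j j.2, alt_two, alt_two] at h1
      exact h1
    | mul x y hx hy => rw [map_mul]; exact hx.mul_right hy
    | inv x hx => rw [map_inv]; exact hx.inv_right
  | mul x y hx hy => rw [map_mul]; exact hx.mul_left hy
  | inv x hx => rw [map_inv]; exact hx.inv_left

theorem zz_comm {T U : IS M} (h : (LO M).Adj T U) : Commute (zz T) (zz U) := by
  rcases h.2 with h1 | h1 | h1
  · obtain ⟨y, hy⟩ := incA_mono h1 (exists_central T.2.2).choose
    have h2 : zz T = incA M U.1 y := hy
    rw [h2]
    exact (zz_comm_range U y).symm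
  · obtain ⟨y, hy⟩ := incA_mono h1 (exists_central U.2.2).choose
    have h2 : zz U = incA M T.1 y := hy
    rw [h2]
    exact zz_comm_range T y
  · exact orth_comm h1 _ _

/-- the reflection with full support -/
noncomputable def fr (T : IS M) : M.Group :=
  (exists_full T.2.1).choose * M.simple (exists_full T.2.1).choose_spec.choose * (exists_full T.2.1).choose⁻¹

theorem fr_subset {T : IS M} {U : Finset B} (h : fr T ∈ (inc M U).range) : T.1 ⊆ U :=
  (exists_full T.2.1).choose_spec.choose_spec.subset h

theorem fr_pos (T : IS M) : 0 < (coc M (zz T)).v (fr T) := by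
  have h := (exists_full T.2.1).choose_spec.choose_spec
  exact zz_pos T h.2.1 h.1

theorem fr_supp {T U : IS M} (h : (coc M (zz U)).v (fr T) ≠ 0) : T.1 ⊆ U.1 :=
  fr_subset (coc_supp U.1 _ _ h)

/-- the matrix of the values -/
noncomputable def mat (M : CoxeterMatrix B) : Matrix (IS M) (IS M) ℤ := fun T U => (coc M (zz U)).v (fr T)

theorem mat_det : (mat M).det ≠ 0 := by
  classical
  intro h
  obtain ⟨v, hv, h0⟩ := Matrix.exists_mulVec_eq_zero_iff.2 h
  obtain ⟨T₀, hT₀⟩ := Function.ne_iff.1 hv
  obtain ⟨T, hT, hmax⟩ := Finset.exists_max_image (Finset.univ.filter fun T : IS M => v T ≠ 0) (fun T => T.1.card)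
    ⟨T₀, Finset.mem_filter.2 ⟨Finset.mem_univ _, hT₀⟩⟩
  rw [Finset.mem_filter] at hT
  have h1 := congrFun h0 T
  rw [Matrix.mulVec, dotProduct, Finset.sum_eq_single T] at h1
  · rcases mul_eq_zero.1 h1 with h2 | h2
    · exact (fr_pos T).ne' h2
    · exact hT.2 h2
  · intro U _ hU
    by_contra h2
    have h3 : mat M T U ≠ 0 := left_ne_zero_of_mul h2
    have h4 : v U ≠ 0 := right_ne_zero_of_mul h2
    have h5 : T.1 ⊆ U.1 := fr_supp h3
    have h6 := hmax U (Finset.mem_filter.2 ⟨Finset.mem_univ _, h4⟩)
    exact hU (Subtype.ext (Finset.eq_of_subset_of_card_le h5 h6).symm)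
  · intro h; exact absurd (Finset.mem_univ _) h

/-- every element of the pure Artin group has a power in `H` -/
def Big (H : Subgroup (Artin M)) : Prop := ∀ x, toCox M x = 1 → ∃ k : ℕ, 0 < k ∧ x ^ k ∈ H

theorem big_of_finiteIndex (H : Subgroup (Artin M)) [H.FiniteIndex] : Big H := by
  intro x _
  obtain ⟨k, hk, _, h⟩ := H.exists_pow_mem_of_index_ne_zero Subgroup.FiniteIndex.index_ne_zero x
  exact ⟨k, hk, h⟩

/-- the homomorphisms -/
noncomputable def ph (H : Subgroup (Artin M)) (T : IS M) : (H ⊓ (toCox M).ker : Subgroup (Artin M)) →* Multiplicative ℤ where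
  toFun x := Multiplicative.ofAdd (∑ U, (mat M).adjugate T U * (coc M (x : Artin M)).v (fr U))
  map_one' := by simp
  map_mul' x y := by
    rw [← ofAdd_add, ← Finset.sum_add_distrib]
    congr 1
    refine Finset.sum_congr rfl fun U _ => ?_
    rw [Subgroup.coe_mul, coc_mul_of_ker x.2.2, mul_add]

theorem coc_pow {x : Artin M} (hx : toCox M x = 1) (k : ℕ) (r : M.Group) : (coc M (x ^ k)).v r = k * (coc M x).v r := by
  induction k with
  | zero => simp
  | succ k ih =>
    rw [pow_succ, coc_mul_of_ker (by rw [map_pow, hx, one_pow]), ih]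
    push_cast
    ring

theorem ph_zz (H : Subgroup (Artin M)) (T U : IS M) (k : ℕ) (h : zz U ^ k ∈ (H ⊓ (toCox M).ker : Subgroup (Artin M))) :
    ph H T ⟨zz U ^ k, h⟩ = Multiplicative.ofAdd (k * if T = U then (mat M).det else 0) := by
  show Multiplicative.ofAdd (∑ V, (mat M).adjugate T V * (coc M (zz U ^ k)).v (fr V)) = _
  congr 1
  have h1 : ∀ V, (mat M).adjugate T V * (coc M (zz U ^ k)).v (fr V) = k * ((mat M).adjugate T V * mat M V U) := by
    intro V
    rw [coc_pow (zz_ker U)]
    show _ = k * ((mat M).adjugate T V * (coc M (zz U)).v (fr V))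
    ring
  rw [Finset.sum_congr rfl fun V _ => h1 V, ← Finset.mul_sum]
  congr 1
  have h2 := congrFun (congrFun (Matrix.adjugate_mul (mat M)) T) U
  rw [Matrix.mul_apply] at h2
  rw [h2, Matrix.smul_apply, Matrix.one_apply, smul_eq_mul]
  split_ifs <;> simp

theorem zz_mem {H : Subgroup (Artin M)} (hH : Big H) (T : IS M) :
    zz T ^ (hH (zz T) (zz_ker T)).choose ∈ (H ⊓ (toCox M).ker : Subgroup (Artin M)) := by
  refine Subgroup.mem_inf.2 ⟨(hH (zz T) (zz_ker T)).choose_spec.2, ?_⟩
  rw [MonoidHom.mem_ker, map_pow, zz_ker, one_pow]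

/-- **The tori of the subgroups of an Artin group.** -/
noncomputable def tori (H : Subgroup (Artin M)) (hH : Big H) : Tori (LO M) (H ⊓ (toCox M).ker : Subgroup (Artin M)) where
  g T := ⟨zz T ^ (hH (zz T) (zz_ker T)).choose, zz_mem hH T⟩
  comm T U h := by
    apply Subtype.ext
    exact (zz_comm h).pow_pow _ _
  φ T := ph H T
  self T := by
    intro h
    have h0 := (ph_zz H T T _ (zz_mem hH T)).symm.trans h
    rw [if_pos rfl] at h0
    have h1 := Multiplicative.ofAdd.injective (h0.trans ofAdd_zero.symm)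
    rcases mul_eq_zero.1 h1 with h2 | h2
    · have := (hH (zz T) (zz_ker T)).choose_spec.1
      rw [Nat.cast_eq_zero] at h2
      omega
    · exact mat_det h2
  other T U h := by
    have h0 := ph_zz H T U _ (zz_mem hH U)
    rw [if_neg h, mul_zero, ofAdd_zero] at h0
    exact h0

end Pool.Agent.H815.AR
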