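import Pool.Agent.H815.AR.Inj
import Pool.Agent.H815.AR.Tor
import Pool.Agent.H815.TW.Sub

/-!
# The nerve of an Artin group whose group acts properly on a contractible manifold
-/

set_option autoImplicit false
set_option linter.unusedSectionVars false

namespace Pool.Agent.H815.AR

open Pool.Agent.Helper741 Pool.Agent.H815.TW

variable {B : Type} {M : CoxeterMatrix B}

theorem Sph.mono {T U : Finset B} (h : Sph M U) (hTU : T ⊆ U) : Sph M T :=
  Set.Finite.subset h (by exact_mod_cast Subgroup.closure_mono (Set.image_mono (by exact_mod_cast hTU)))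

theorem sph_empty : Sph M ∅ := by
  unfold Sph
  rw [Finset.coe_empty, Set.image_empty, Subgroup.closure_empty, Subgroup.coe_bot]
  exact Set.finite_singleton 1

section

variable [Fintype B] [DecidableEq B]

theorem inc_comm {T U : Finset B} (h : Orth M T U) (x : (sub M T).Group) (y : (sub M U).Group) :
    Commute (inc M T x) (inc M U y) := by
  obtain ⟨a, rfl⟩ := Artin.toCox_surjective (cs (sub M T)) x
  obtain ⟨b, rfl⟩ := Artin.toCox_surjective (cs (sub M U)) y
  rw [← toCox_eq, ← toCox_eq, ← toCox_incA, ← toCox_incA]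
  exact (orth_comm h a b).map (toCox M)

theorem Sph.union {T U : Finset B} (hT : Sph M T) (hU : Sph M U) (h : Orth M T U) : Sph M (T ∪ U) := by
  have : Finite (sub M T).Group := hT.finite
  have : Finite (sub M U).Group := hU.finite
  have h1 : Subgroup.closure (M.simple '' ((T ∪ U : Finset B) : Set B)) ≤
      ((inc M T).noncommCoprod (inc M U) (inc_comm h)).range := by
    rw [Subgroup.closure_le]
    rintro _ ⟨i, hi, rfl⟩
    rw [Finset.mem_coe, Finset.mem_union] at hi
    rcases hi with hi | hi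
    · refine ⟨((sub M T).simple ⟨i, hi⟩, 1), ?_⟩
      rw [MonoidHom.noncommCoprod_apply, map_one, mul_one, inc_simple]
    · refine ⟨(1, (sub M U).simple ⟨i, hi⟩), ?_⟩
      rw [MonoidHom.noncommCoprod_apply, map_one, one_mul, inc_simple]
  exact Set.Finite.subset (Set.finite_range _) (by exact_mod_cast h1)

theorem sph_singleton (i : B) : Sph M {i} := by
  unfold Sph
  rw [Finset.coe_singleton, Set.image_singleton, ← Subgroup.zpowers_eq_closure, finite_zpowers]
  exact isOfFinOrder_iff_pow_eq_one.2 ⟨2, by norm_num, (cs M).simple_sq i⟩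

/-- the union of a set of pairwise adjacent irreducible spherical subsets is spherical -/
theorem sph_biUnion {N : Finset (IS M)} (h : (LO M).IsClique (N : Set (IS M))) : Sph M (N.biUnion fun T => T.1) := by
  classical
  induction hn : N.card using Nat.strong_induction_on generalizing N with
  | _ n ih =>
  subst hn
  by_cases h0 : N = ∅
  · subst h0
    rw [Finset.biUnion_empty]
    exact sph_empty
  obtain ⟨T, hT, hmax⟩ := Finset.exists_max_image N (fun T => T.1.card) (Finset.nonempty_iff_ne_empty.2 h0)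
  have h1 : N.biUnion (fun T => T.1) = T.1 ∪ (N.filter fun U => Orth M T.1 U.1).biUnion fun T => T.1 := by
    ext i
    rw [Finset.mem_biUnion, Finset.mem_union, Finset.mem_biUnion]
    constructor
    · rintro ⟨U, hU, hi⟩
      by_cases hUT : U = T
      · subst hUT; exact Or.inl hi
      · rcases (h (Finset.mem_coe.2 hT) (Finset.mem_coe.2 hU) (Ne.symm hUT)).2 with h2 | h2 | h2
        · have h3 : T.1 = U.1 := Finset.eq_of_subset_of_card_le h2 (hmax U hU)
          exact absurd (Subtype.ext h3.symm) hUT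
        · exact Or.inl (h2 hi)
        · exact Or.inr ⟨U, Finset.mem_filter.2 ⟨hU, h2⟩, hi⟩
    · rintro (hi | ⟨U, hU, hi⟩)
      · exact ⟨T, hT, hi⟩
      · exact ⟨U, (Finset.mem_filter.1 hU).1, hi⟩
  rw [h1]
  refine T.2.2.union (ih _ ?_ (N := N.filter fun U => Orth M T.1 U.1) ?_ rfl) ?_
  · refine Finset.card_lt_card ⟨Finset.filter_subset _ _, fun h2 => ?_⟩
    obtain ⟨i, hi⟩ := T.2.1.1
    exact (Finset.mem_filter.1 (h2 hT)).2.not_mem hi hi
  · exact fun a ha b hb hab => h (Finset.mem_coe.2 (Finset.mem_filter.1 (Finset.mem_coe.1 ha)).1)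
      (Finset.mem_coe.2 (Finset.mem_filter.1 (Finset.mem_coe.1 hb)).1) hab
  · intro i hi j hj
    obtain ⟨U, hU, hj'⟩ := Finset.mem_biUnion.1 hj
    exact (Finset.mem_filter.1 hU).2 i hi j hj'

/-- the carrier of the nerve -/
theorem exists_carrier (U : Finset B) (hU : U.Nonempty) :
    ∃ (c : Finset B → {T : IS M | T.1 ⊆ U}) (π : {T : IS M | T.1 ⊆ U} → B),
      Nonempty (Carrier ((LO M).induce {T : IS M | T.1 ⊆ U}) (fun σ => σ ⊆ U ∧ Sph M σ) c π) := by
  classical
  obtain ⟨u, hu⟩ := hU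
  have hex : ∀ σ : Finset B, ∃ c : {T : IS M | T.1 ⊆ U}, (σ ⊆ U ∧ Sph M σ) → σ ≠ ∅ →
      c.1.1 ⊆ σ ∧ ∀ T ⊆ σ, Irr M T → T ⊆ c.1.1 ∨ Orth M T c.1.1 := by
    intro σ
    by_cases h : (σ ⊆ U ∧ Sph M σ) ∧ σ ≠ ∅
    · obtain ⟨c, h1, h2, h3⟩ := exists_apex (M := M) (Finset.nonempty_iff_ne_empty.2 h.2)
      exact ⟨⟨⟨c, h2, h.1.2.mono h1⟩, h1.trans h.1.1⟩, fun _ _ => ⟨h1, h3⟩⟩
    · exact ⟨⟨⟨{u}, irr_singleton u, sph_singleton u⟩, Finset.singleton_subset_iff.2 hu⟩,
        fun h1 h2 => absurd ⟨h1, h2⟩ h⟩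
  choose c hc using hex
  refine ⟨c, fun T => T.1.2.1.1.choose, ⟨{
    car := fun σ T => T.1.1 ⊆ σ
    down := fun σ τ h h2 => ⟨h.trans h2.1, h2.2.mono h⟩
    mono := fun σ τ x h h2 => h2.trans h
    mem := fun σ h h2 => (hc σ h h2).1
    adj := ?_
    map := fun σ T h => h T.1.2.1.1.choose_spec
    clique := ?_ }⟩⟩
  · intro σ h h2 T hT hne
    refine ⟨fun e => hne (Subtype.ext e.symm), ?_⟩
    rcases (hc σ h h2).2 T.1.1 hT T.1.2.1 with h3 | h3
    · exact Or.inr (Or.inl h3)
    · exact Or.inr (Or.inr h3.symm)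
  · intro N hN
    have h1 : (LO M).IsClique ((N.image Subtype.val : Finset (IS M)) : Set (IS M)) := by
      intro a ha b hb hab
      rw [Finset.mem_coe, Finset.mem_image] at ha hb
      obtain ⟨a', ha', rfl⟩ := ha
      obtain ⟨b', hb', rfl⟩ := hb
      exact hN (Finset.mem_coe.2 ha') (Finset.mem_coe.2 hb') fun e => hab (by rw [e])
    refine ⟨?_, (sph_biUnion h1).mono ?_⟩
    · intro i hi
      obtain ⟨T, _, rfl⟩ := Finset.mem_image.1 hi
      exact T.2 T.1.2.1.1.choose_spec
    · intro i hi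
      obtain ⟨T, hT, rfl⟩ := Finset.mem_image.1 hi
      exact Finset.mem_biUnion.2 ⟨T.1, Finset.mem_image_of_mem _ hT, T.1.2.1.1.choose_spec⟩

end

/-- **The vanishing theorem for Artin groups.** -/
theorem artin_nerve [Fintype B] [DecidableEq B] (M : CoxeterMatrix B) (H : Subgroup (Artin M)) (hH : Big H)
    (Γ : Type) [Group Γ] (f : H →* Γ) (hf : Function.Injective f) {n i : ℕ} (ha : Acts n Γ) (hi : n < 2 * i)
    (U : Finset B) : AcyC (fun T => T ⊆ U ∧ Sph M T) i := by
  classical
  by_cases hU : U.Nonempty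
  · have T := tori H hH
    obtain ⟨c, π, ⟨C⟩⟩ := exists_carrier (M := M) U hU
    have ha' : Acts n (H ⊓ (toCox M).ker : Subgroup (Artin M)) := by
      refine ha.of_hom (f.comp (Subgroup.inclusion inf_le_left)) ?_
      exact hf.comp (Subgroup.inclusion_injective _)
    refine acyC_of_acy C ?_
    exact (artin_sub T ha' hi {T : IS M | T.1 ⊆ U}).1
  · rw [Finset.not_nonempty_iff_eq_empty] at hU
    subst hU
    intro z hz _
    have h0 : z = 0 := by
      funext σ
      by_contra h
      obtain ⟨⟨h1, _⟩, h2⟩ := hz σ h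
      rw [Finset.subset_empty.1 h1, Finset.card_empty] at h2
      omega
    refine ⟨0, fun σ h => absurd rfl h, fun ρ => ?_⟩
    rw [h0]
    exact Finset.sum_eq_zero fun _ _ => rfl

end Pool.Agent.H815.AR
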