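import Pool.Agent.H815.AR.Root

/-!
# The central elements of the spherical special subgroups and their cocycles
-/

set_option autoImplicit false
set_option linter.unusedSectionVars false

namespace Pool.Agent.H815.AR

open Pool.Agent.Helper741 Pool.Agent.H815.TW

variable {B : Type} {M : CoxeterMatrix B} [Fintype B] [DecidableEq B]

/-- the cocycle which counts the signed crossings of the walls -/
noncomputable def coc (M : CoxeterMatrix B) : Artin M →* TExt ℤ M.Group := cocyc (cs M) (lenHom M)

theorem coc_w (x : Artin M) : (coc M x).w = toCox M x := cocyc_w _ _ _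

theorem coc_gen (i : B) : coc M (Artin.gen M i) = TExt.el 1 (M.simple i) := by
  unfold coc
  rw [cocyc_gen, lenHom_gen]
  rfl

/-- the cocycle of a positive word is nonnegative -/
theorem coc_word (ω : List B) (r : M.Group) : 0 ≤ (coc M (ω.map (Artin.gen M)).prod).v r := by
  classical
  induction ω generalizing r with
  | nil => simp
  | cons i ω ih =>
    rw [List.map_cons, List.prod_cons, map_mul, TExt.mul_v, Finsupp.add_apply, TExt.act_apply, coc_gen, TExt.el_v,
      TExt.el_w]
    refine add_nonneg ?_ (ih _)
    rw [Finsupp.single_apply]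
    split_ifs <;> simp

/-- the positive words -/
def Pos (M : CoxeterMatrix B) (x : Artin M) : Prop := ∃ ω : List B, x = (ω.map (Artin.gen M)).prod

theorem Pos.mul {x y : Artin M} (hx : Pos M x) (hy : Pos M y) : Pos M (x * y) := by
  obtain ⟨ω, rfl⟩ := hx
  obtain ⟨ω', rfl⟩ := hy
  exact ⟨ω ++ ω', by rw [List.map_append, List.prod_append]⟩

theorem Pos.coc {x : Artin M} (hx : Pos M x) (r : M.Group) : 0 ≤ (coc M x).v r := by
  obtain ⟨ω, rfl⟩ := hx
  exact coc_word ω r

/-- the cocycle of an element of a special subgroup is supported in the special subgroup -/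
theorem coc_supp (T : Finset B) (x : Artin (sub M T)) (r : M.Group) (hr : (coc M (incA M T x)).v r ≠ 0) :
    r ∈ (inc M T).range := by
  classical
  induction x using Artin.induction generalizing r with
  | one => simp at hr
  | gen i =>
    rw [incA_gen, coc_gen, TExt.el_v, Finsupp.single_apply] at hr
    split_ifs at hr with h
    · rw [← h]; exact simple_mem i.2
    · exact absurd rfl hr
  | mul x y hx hy =>
    rw [map_mul, map_mul, TExt.mul_v, Finsupp.add_apply] at hr
    by_cases h1 : (coc M (incA M T x)).v r = 0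
    · rw [h1, zero_add, TExt.act_apply] at hr
      have h2 := hy _ hr
      have h3 : (coc M (incA M T x)).w ∈ (inc M T).range := by
        rw [coc_w, toCox_incA]; exact ⟨_, rfl⟩
      have : r = (coc M (incA M T x)).w * ((coc M (incA M T x)).w⁻¹ * r * (coc M (incA M T x)).w) *
          (coc M (incA M T x)).w⁻¹ := by group
      rw [this]
      exact mul_mem (mul_mem h3 h2) (inv_mem h3)
    · exact hx _ h1
  | inv x hx =>
    rw [map_inv, map_inv, TExt.inv_v, Finsupp.neg_apply, neg_ne_zero, TExt.act_apply] at hr
    have h2 := hx _ hr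
    have h3 : (coc M (incA M T x)).w ∈ (inc M T).range := by
      rw [coc_w, toCox_incA]; exact ⟨_, rfl⟩
    have : r = (coc M (incA M T x)).w⁻¹ * ((coc M (incA M T x)).w⁻¹⁻¹ * r * (coc M (incA M T x)).w⁻¹) *
        (coc M (incA M T x)).w⁻¹⁻¹ := by group
    rw [this]
    exact mul_mem (mul_mem (inv_mem h3) h2) (inv_mem (inv_mem h3))

/-- the elements of the kernel add up -/
theorem coc_mul_of_ker {x y : Artin M} (hx : toCox M x = 1) (r : M.Group) :
    (coc M (x * y)).v r = (coc M x).v r + (coc M y).v r := by
  rw [map_mul, TExt.mul_v, Finsupp.add_apply, TExt.act_apply, coc_w, hx]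
  simp

/-- **The central element of a spherical special subgroup.** -/
theorem exists_central {T : Finset B} (hT : Sph M T) :
    ∃ z : Artin (sub M T), z ∈ Subgroup.center (Artin (sub M T)) ∧ toCox M (incA M T z) = 1 ∧
      (∀ i ∈ T, ∀ w ∈ (inc M T).range, 0 < (coc M (incA M T z)).v (w * M.simple i * w⁻¹)) ∧
      ∃ ω : List T, z = (ω.map (Artin.gen (sub M T))).prod := by
  classical
  have : Finite (sub M T).Group := hT.finite
  obtain ⟨w₀, h⟩ := exists_longest (cs (sub M T))
  obtain ⟨D, hD⟩ : ∃ D : Artin (sub M T), D = sec (cs (sub M T)) w₀ := ⟨_, rfl⟩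
  have hsq := longest_sq h
  have hcen : D * D ∈ Subgroup.center (Artin (sub M T)) := by rw [hD]; exact delta_sq_center h
  have hw : toCox (sub M T) D = w₀ := by
    rw [hD]
    unfold sec
    have h1 : ∀ ω : List T, toCox (sub M T) (ω.map (Artin.gen (sub M T))).prod = (cs (sub M T)).wordProd ω := by
      intro ω
      induction ω with
      | nil => simp
      | cons i ω ih =>
        rw [List.map_cons, List.prod_cons, map_mul, ih, toCox_gen, (cs (sub M T)).wordProd_cons]
        rfl
    rw [h1, rword_prod]
  have hker : toCox M (incA M T (D * D)) = 1 := by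
    rw [toCox_incA, map_mul, hw, hsq, map_one]
  have hposm : ∀ ω : List T, Pos M (incA M T (ω.map (Artin.gen (sub M T))).prod) := by
    intro ω
    refine ⟨ω.map Subtype.val, ?_⟩
    induction ω with
    | nil => simp
    | cons i ω ih => rw [List.map_cons, List.prod_cons, map_mul, ih, incA_gen]; simp
  have hposs : ∀ w, Pos M (incA M T (sec (cs (sub M T)) w)) := fun w => hposm _
  refine ⟨D * D, hcen, hker, fun i hi w hwr => ?_, ?_⟩
  swap
  · refine ⟨rword (cs (sub M T)) w₀ ++ rword (cs (sub M T)) w₀, ?_⟩
    rw [List.map_append, List.prod_append, hD]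
    rfl
  -- the value at a simple reflection
  have hsim : 0 < (coc M (incA M T (D * D))).v (M.simple i) := by
    have hlt : (cs (sub M T)).length ((cs (sub M T)).simple ⟨i, hi⟩ * w₀) < (cs (sub M T)).length w₀ := by
      rcases (cs (sub M T)).length_simple_mul w₀ ⟨i, hi⟩ with h1 | h1
      · have := h ((cs (sub M T)).simple ⟨i, hi⟩ * w₀)
        omega
      · omega
    have h1 : D = Artin.gen (sub M T) ⟨i, hi⟩ * sec (cs (sub M T)) ((cs (sub M T)).simple ⟨i, hi⟩ * w₀) := by
      rw [hD]
      have h2 := sec_simple_mul (cs (sub M T)) ((cs (sub M T)).simple ⟨i, hi⟩ * w₀) ⟨i, hi⟩ (by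
        rw [(cs (sub M T)).simple_mul_simple_cancel_left]; exact hlt)
      rw [(cs (sub M T)).simple_mul_simple_cancel_left] at h2
      exact h2
    have h4 : Pos M (incA M T (sec (cs (sub M T)) ((cs (sub M T)).simple ⟨i, hi⟩ * w₀)) * incA M T D) := by
      rw [hD]
      exact (hposs _).mul (hposs _)
    obtain ⟨E, hE⟩ : ∃ E, E = sec (cs (sub M T)) ((cs (sub M T)).simple ⟨i, hi⟩ * w₀) := ⟨_, rfl⟩
    rw [← hE] at h1 h4
    have hE2 : incA M T D = Artin.gen M i * incA M T E := by
      have := congrArg (incA M T) h1
      rw [map_mul, incA_gen] at this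
      exact this
    have h3 : incA M T (D * D) = Artin.gen M i * (incA M T E * incA M T D) := by
      rw [map_mul, ← mul_assoc, ← hE2]
    rw [h3, map_mul, TExt.mul_v, Finsupp.add_apply, TExt.act_apply, coc_gen, TExt.el_v, TExt.el_w,
      Finsupp.single_eq_same]
    have := h4.coc ((M.simple i)⁻¹ * M.simple i * M.simple i)
    linarith
  -- invariance under conjugation
  obtain ⟨u, rfl⟩ := hwr
  obtain ⟨y, rfl⟩ := Artin.toCox_surjective (cs (sub M T)) u
  have hcom : incA M T (D * D) * incA M T y = incA M T y * incA M T (D * D) := by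
    rw [← map_mul, ← map_mul, (Subgroup.mem_center_iff.1 hcen y)]
  have h5 := cocyc_inv_of_commute (cs M) (lenHom M) (incA M T (D * D)) (incA M T y) hcom (fun w => by
    rw [← toCox_eq, hker, one_mul, mul_one]) (M.simple i)
  rw [← toCox_eq, toCox_incA] at h5
  rw [← toCox_eq]
  exact hsim.trans_eq h5.symm

end Pool.Agent.H815.AR
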