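import Pool.Agent.H815.AR.Car

/-!
# The carrier lemma
-/

set_option autoImplicit false
set_option linter.unusedSectionVars false

namespace Pool.Agent.H815.AR

open Finset Pool.Agent.H815.TW

variable {B X : Type} [Fintype B] [DecidableEq B] [Fintype X] [DecidableEq X]

/-- the complexes of cliques which carry the simplices of `K` -/
structure Carrier (G : SimpleGraph X) (K : Finset B → Prop) (c : Finset B → X) (π : X → B) : Type where
  car : Finset B → X → Prop
  down : ∀ σ τ, τ ⊆ σ → K σ → K τ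
  mono : ∀ σ τ x, σ ⊆ τ → car σ x → car τ x
  mem : ∀ σ, K σ → σ ≠ ∅ → car σ (c σ)
  adj : ∀ σ, K σ → σ ≠ ∅ → ∀ x, car σ x → x ≠ c σ → G.Adj (c σ) x
  map : ∀ σ x, car σ x → π x ∈ σ
  clique : ∀ N : Finset X, G.IsClique (N : Set X) → K (N.image π)

variable {G : SimpleGraph X} {K : Finset B → Prop} {c : Finset B → X} {π : X → B}

theorem Sd_supp (h : Carrier G K c π) {σ : Finset B} (hσ : K σ) {N : Finset X} (hN : Sd c σ N ≠ 0) :
    (∀ x ∈ N, h.car σ x) ∧ G.IsClique (N : Set X) ∧ N.card = σ.card := by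
  induction hn : σ.card using Nat.strong_induction_on generalizing σ N with
  | _ n ih =>
  subst hn
  by_cases h0 : σ = ∅
  · subst h0
    rw [Sd_empty] at hN
    unfold dl at hN
    split_ifs at hN with h1
    · subst h1
      refine ⟨fun x hx => absurd hx (notMem_empty x), ?_, rfl⟩
      rw [coe_empty]
      exact SimpleGraph.isClique_empty
    · exact absurd rfl hN
  · rw [Sd_ne c h0] at hN
    unfold cone at hN
    split_ifs at hN with hc
    swap
    · exact absurd rfl hN
    rw [Finset.sum_apply] at hN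
    obtain ⟨v, hv, hv2⟩ := exists_ne_zero_of_sum_ne_zero hN
    obtain ⟨h1, h2, h3⟩ := ih _ (card_erase_lt_of_mem hv) (h.down _ _ (erase_subset _ _) hσ) hv2 rfl
    have hcar : ∀ x ∈ N, h.car σ x := by
      intro x hx
      by_cases hxc : x = c σ
      · rw [hxc]; exact h.mem σ hσ h0
      · exact h.mono _ _ _ (erase_subset _ _) (h1 x (mem_erase.2 ⟨hxc, hx⟩))
    refine ⟨hcar, ?_, ?_⟩
    · intro x hx y hy hxy
      by_cases hxc : x = c σ
      · rw [hxc] at hxy ⊢
        exact h.adj σ hσ h0 y (hcar y hy) hxy.symm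
      · by_cases hyc : y = c σ
        · rw [hyc]
          exact (h.adj σ hσ h0 x (hcar x hx) hxc).symm
        · exact h2 (mem_coe.2 (mem_erase.2 ⟨hxc, hx⟩)) (mem_coe.2 (mem_erase.2 ⟨hyc, hy⟩)) hxy
    · rw [card_erase_of_mem hc, card_erase_of_mem hv] at h3
      have a1 : 0 < N.card := card_pos.2 ⟨_, hc⟩
      have a2 : 0 < σ.card := card_pos.2 ⟨_, hv⟩
      omega

theorem push_Sd (h : Carrier G K c π) {σ : Finset B} (hσ : K σ) : push π (Sd c σ) = dl σ := by
  induction hn : σ.card using Nat.strong_induction_on generalizing σ with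
  | _ n ih =>
  subst hn
  by_cases h0 : σ = ∅
  · subst h0
    rw [Sd_empty]
    funext τ
    unfold push dl
    rw [sum_eq_single ∅]
    · rw [image_empty, card_empty]
      by_cases h1 : τ = ∅
      · subst h1; simp
      · rw [if_neg h1, if_neg fun h2 => h1 h2.1.symm]
    · intro N _ hN
      rw [if_neg hN]
      simp
    · intro h; exact absurd (mem_univ _) h
  -- the support
  have hsupp : ∀ τ, push π (Sd c σ) τ ≠ 0 → τ = σ := by
    intro τ hτ
    obtain ⟨N, _, hN⟩ := exists_ne_zero_of_sum_ne_zero hτ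
    split_ifs at hN with h1
    · obtain ⟨h2, _, h4⟩ := Sd_supp h hσ hN
      apply eq_of_subset_of_card_le
      · rw [← h1.1]
        intro b hb
        obtain ⟨x, hx, rfl⟩ := mem_image.1 hb
        exact h.map _ _ (h2 x hx)
      · rw [← h1.2, h4]
    · exact absurd rfl hN
  obtain ⟨v₀, hv₀⟩ := nonempty_iff_ne_empty.2 h0
  have hbd : bd (push π (Sd c σ)) (σ.erase v₀) = 1 := by
    rw [← push_bd, bd_Sd, push_sum, Finset.sum_apply, sum_eq_single_of_mem v₀ hv₀]
    · rw [ih _ (card_erase_lt_of_mem hv₀) (h.down _ _ (erase_subset _ _) hσ) rfl]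
      unfold dl
      rw [if_pos rfl]
    · intro v hv hne
      rw [ih _ (card_erase_lt_of_mem hv) (h.down _ _ (erase_subset _ _) hσ) rfl]
      unfold dl
      rw [if_neg]
      intro h1
      have h2 : v ∈ σ.erase v₀ := mem_erase.2 ⟨hne, hv⟩
      rw [h1] at h2
      exact notMem_erase _ _ h2
  have hval : push π (Sd c σ) σ = 1 := by
    unfold bd at hbd
    rw [sum_eq_single_of_mem v₀ (mem_compl.2 (notMem_erase _ _)), insert_erase hv₀] at hbd
    · exact hbd
    · intro v hv hne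
      by_contra h1
      have h2 := hsupp _ h1
      have h3 : v₀ ∈ insert v (σ.erase v₀) := by rw [h2]; exact hv₀
      rcases mem_insert.1 h3 with h4 | h4
      · exact hne h4.symm
      · exact notMem_erase _ _ h4
  funext τ
  unfold dl
  by_cases h1 : τ = σ
  · rw [if_pos h1, h1, hval]
  · rw [if_neg h1]
    by_contra h2
    exact h1 (hsupp τ h2)

/-- **The carrier lemma.** -/
theorem acyC_of_acy (h : Carrier G K c π) {i : ℕ} (hG : Acy G i) : AcyC K i := by
  intro z hz hb
  have hb' : bd z = 0 := funext hb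
  obtain ⟨Z, hZ⟩ : ∃ Z : Finset X → ZMod 2, Z = ∑ σ, z σ • Sd c σ := ⟨_, rfl⟩
  have hZs : ∀ N, Z N ≠ 0 → G.IsClique (N : Set X) ∧ N.card = i := by
    intro N hN
    rw [hZ, Finset.sum_apply] at hN
    obtain ⟨σ, _, hσ⟩ := exists_ne_zero_of_sum_ne_zero hN
    rw [Pi.smul_apply, smul_eq_mul] at hσ
    obtain ⟨h1, h2⟩ := hz σ (left_ne_zero_of_mul hσ)
    obtain ⟨_, h4, h5⟩ := Sd_supp h h1 (right_ne_zero_of_mul hσ)
    exact ⟨h4, h5.trans h2⟩
  have hZb : bd Z = 0 := by
    rw [hZ, bd_sum]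
    have h1 : ∀ σ : Finset B, bd (z σ • Sd c σ) = ∑ v ∈ σ, z σ • Sd c (σ.erase v) := by
      intro σ
      rw [bd_smul, bd_Sd, smul_sum]
    rw [sum_congr rfl fun σ _ => h1 σ]
    have h2 : ∑ σ : Finset B, ∑ v ∈ σ, z σ • Sd c (σ.erase v) = ∑ τ : Finset B, bd z τ • Sd c τ := by
      have h3 : ∀ τ : Finset B, bd z τ • Sd c τ = ∑ v ∈ τᶜ, z (insert v τ) • Sd c τ := by
        intro τ
        unfold bd
        rw [sum_smul]
      rw [sum_congr rfl fun τ _ => h3 τ, sum_sigma', sum_sigma']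
      refine sum_bij' (fun x _ => ⟨x.1.erase x.2, x.2⟩) (fun x _ => ⟨insert x.2 x.1, x.2⟩) ?_ ?_ ?_ ?_ ?_
      · rintro ⟨N, v⟩ h
        rw [mem_sigma] at h ⊢
        exact ⟨mem_univ _, mem_compl.2 (notMem_erase _ _)⟩
      · rintro ⟨N, v⟩ h
        rw [mem_sigma] at h ⊢
        exact ⟨mem_univ _, mem_insert_self _ _⟩
      · rintro ⟨N, v⟩ h
        rw [mem_sigma] at h
        show (⟨insert v (N.erase v), v⟩ : Σ _ : Finset B, B) = ⟨N, v⟩
        rw [insert_erase h.2]
      · rintro ⟨N, v⟩ h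
        rw [mem_sigma] at h
        show (⟨(insert v N).erase v, v⟩ : Σ _ : Finset B, B) = ⟨N, v⟩
        rw [erase_insert (mem_compl.1 h.2)]
      · rintro ⟨N, v⟩ h
        rw [mem_sigma] at h
        show _ = z (insert v (N.erase v)) • Sd c (N.erase v)
        rw [insert_erase h.2]
    rw [h2, hb']
    exact sum_eq_zero fun τ _ => by rw [Pi.zero_apply, zero_smul]
  obtain ⟨w, hw, hwb⟩ := hG Z hZs (fun ρ => congrFun hZb ρ)
  have hwb' : bd w = Z := funext hwb
  refine ⟨push π w, fun τ hτ => ?_, fun τ => ?_⟩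
  · obtain ⟨N, _, hN⟩ := exists_ne_zero_of_sum_ne_zero hτ
    split_ifs at hN with h1
    · obtain ⟨h2, h3⟩ := hw N hN
      exact ⟨h1.1 ▸ h.clique N h2, h1.2 ▸ h3⟩
    · exact absurd rfl hN
  · show bd (push π w) τ = z τ
    rw [← push_bd, hwb', hZ, push_sum, Finset.sum_apply, sum_eq_single τ]
    · rw [push_smul, Pi.smul_apply, smul_eq_mul]
      by_cases h1 : z τ = 0
      · rw [h1, zero_mul]
      · rw [push_Sd h (hz τ h1).1]
        unfold dl
        rw [if_pos rfl, mul_one]
    · intro σ _ hne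
      rw [push_smul, Pi.smul_apply, smul_eq_mul]
      by_cases h1 : z σ = 0
      · rw [h1, zero_mul]
      · rw [push_Sd h (hz σ h1).1]
        unfold dl
        rw [if_neg (Ne.symm hne), mul_zero]
    · intro h1; exact absurd (mem_univ _) h1

end Pool.Agent.H815.AR
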