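import Pool.Agent.H815.AR.Fin

/-!
# Kernels of characters of Artin groups
-/

set_option autoImplicit false
set_option linter.unusedSectionVars false

namespace Pool.Agent.H815.AR

open Pool.Agent.Helper741 Pool.Agent.H815.TW

variable {B : Type} [Fintype B] [DecidableEq B] {M : CoxeterMatrix B}

noncomputable instance : DecidableRel (LO M).Adj := Classical.decRel _

/-- the homomorphisms of the pure Artin group -/
noncomputable def pk (T : IS M) : (toCox M).ker →* Multiplicative ℤ where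
  toFun x := Multiplicative.ofAdd (∑ U, (mat M).adjugate T U * (coc M (x : Artin M)).v (fr U))
  map_one' := by simp
  map_mul' x y := by
    rw [← ofAdd_add, ← Finset.sum_add_distrib]
    congr 1
    refine Finset.sum_congr rfl fun U _ => ?_
    rw [Subgroup.coe_mul, coc_mul_of_ker x.2, mul_add]

/-- the central elements, in the pure Artin group -/
noncomputable def pz (T : IS M) : (toCox M).ker := ⟨zz T, zz_ker T⟩

theorem pk_pz (T U : IS M) : pk T (pz U) = Multiplicative.ofAdd (if T = U then (mat M).det else 0) := by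
  show Multiplicative.ofAdd (∑ V, (mat M).adjugate T V * (coc M (zz U)).v (fr V)) = _
  congr 1
  have h2 := congrFun (congrFun (Matrix.adjugate_mul (mat M)) T) U
  rw [Matrix.mul_apply] at h2
  show ∑ V, (mat M).adjugate T V * mat M V U = _
  rw [h2, Matrix.smul_apply, Matrix.one_apply, smul_eq_mul]
  split_ifs <;> simp

/-- every element of the pure Artin group in the kernel of `χ` has a power in `H` -/
def BigK {Q : Type} [Group Q] (χ : Artin M →* Q) (H : Subgroup (Artin M)) : Prop :=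
  ∀ x, toCox M x = 1 → χ x = 1 → ∃ k : ℕ, 0 < k ∧ x ^ k ∈ H

/-- the vertices which are adjacent to all elements of `J` -/
def lkS (M : CoxeterMatrix B) (J : Finset (IS M)) : Set (IS M) := {T | ∀ U ∈ J, (LO M).Adj U T}

theorem comm_closure {G : Type} [Group G] {S : Set G} {x : G} (h : ∀ y ∈ S, Commute x y) {p : G}
    (hp : p ∈ Subgroup.closure S) : Commute x p := by
  induction hp using Subgroup.closure_induction with
  | mem y hy => exact h y hy
  | one => exact Commute.one_right x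
  | mul y z _ _ hy hz => exact hy.mul_right hz
  | inv y _ hy => exact hy.inv_right

theorem pz_comm {T U : IS M} (h : (LO M).Adj T U) : Commute (pz T) (pz U) := Subtype.ext (zz_comm h)

/-- **The tori in the kernel of a homomorphism.** -/
theorem toriK {Q : Type} [Group Q] (χ : Artin M →* Q) (J : Finset (IS M)) (hJ : (LO M).IsClique (J : Set (IS M)))
    (hsp : ∀ T ∈ lkS M J, ∃ k : ℕ, 0 < k ∧ ∃ p ∈ Subgroup.closure (pz '' (J : Set (IS M))), χ (zz T) ^ k = χ (p : Artin M))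
    (H : Subgroup (Artin M)) (hH : BigK χ H) :
    Nonempty (Tori ((LO M).induce (lkS M J)) (H ⊓ (toCox M).ker : Subgroup (Artin M))) := by
  have hsp' : ∀ T : lkS M J, ∃ k : ℕ, 0 < k ∧ ∃ p ∈ Subgroup.closure (pz '' (J : Set (IS M))),
      χ (zz T.1) ^ k = χ (p : Artin M) := fun T => hsp T.1 T.2
  choose l hl p hp hpk using hsp'
  obtain ⟨yy, hyy⟩ : ∃ yy : lkS M J → (toCox M).ker, ∀ T, yy T = pz T.1 ^ l T * (p T)⁻¹ := ⟨_, fun T => rfl⟩
  have hychi : ∀ T, χ (yy T : Artin M) = 1 := by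
    intro T
    rw [hyy, Subgroup.coe_mul, Subgroup.coe_pow, Subgroup.coe_inv, map_mul, map_pow, map_inv, ← hpk T]
    exact mul_inv_cancel _
  have hk : ∀ T : lkS M J, ∃ k : ℕ, 0 < k ∧ (yy T : Artin M) ^ k ∈ H := fun T => hH _ (yy T).2 (hychi T)
  choose k hk hkm using hk
  have hmem : ∀ T : lkS M J, (yy T : Artin M) ^ k T ∈ (H ⊓ (toCox M).ker : Subgroup (Artin M)) := by
    intro T
    exact Subgroup.mem_inf.2 ⟨hkm T, pow_mem (yy T).2 _⟩
  obtain ⟨y, hy⟩ : ∃ y : lkS M J → (H ⊓ (toCox M).ker : Subgroup (Artin M)),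
      ∀ T, (y T : Artin M) = (yy T : Artin M) ^ k T := ⟨fun T => ⟨_, hmem T⟩, fun T => rfl⟩
  have hinc : ∀ T, Subgroup.inclusion (inf_le_right : H ⊓ (toCox M).ker ≤ (toCox M).ker) (y T) = yy T ^ k T := by
    intro T
    apply Subtype.ext
    rw [Subgroup.coe_inclusion, hy, Subgroup.coe_pow]
  have hnJ : ∀ T : lkS M J, T.1 ∉ J := fun T hT => (LO M).loopless.irrefl T.1 (T.2 T.1 hT)
  -- the homomorphisms vanish on `p`
  have hpkp : ∀ T U : lkS M J, pk T.1 (p U) = 1 := by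
    intro T U
    have h1 : Subgroup.closure (pz '' (J : Set (IS M))) ≤ (pk T.1).ker := by
      rw [Subgroup.closure_le]
      rintro _ ⟨V, hV, rfl⟩
      show pk T.1 (pz V) = 1
      rw [pk_pz, if_neg (fun e => hnJ T (by rw [e]; exact hV)), ofAdd_zero]
    exact h1 (hp U)
  have hval : ∀ T U : lkS M J, pk T.1 (Subgroup.inclusion (inf_le_right : H ⊓ (toCox M).ker ≤ (toCox M).ker) (y U)) =
      Multiplicative.ofAdd ((k U : ℤ) * ((l U : ℤ) * if T.1 = U.1 then (mat M).det else 0)) := by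
    intro T U
    rw [hinc, map_pow, hyy, map_mul, map_pow, map_inv, hpkp, inv_one, mul_one, pk_pz]
    apply Multiplicative.toAdd.injective
    rw [toAdd_pow, toAdd_pow, nsmul_eq_mul, nsmul_eq_mul]
    rfl
  have hcomm : ∀ T U : lkS M J, (LO M).Adj T.1 U.1 → Commute (yy T) (yy U) := by
    intro T U h
    rw [hyy, hyy]
    have a1 : Commute (pz T.1) (pz U.1) := pz_comm h
    have a2 : ∀ V : lkS M J, ∀ q ∈ Subgroup.closure (pz '' (J : Set (IS M))), Commute (pz V.1) q := by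
      intro V q hq
      refine comm_closure ?_ hq
      rintro _ ⟨X, hX, rfl⟩
      exact (pz_comm (V.2 X hX)).symm
    have a3 : ∀ q ∈ Subgroup.closure (pz '' (J : Set (IS M))), ∀ r ∈ Subgroup.closure (pz '' (J : Set (IS M))),
        Commute q r := by
      intro q hq r hr
      refine comm_closure ?_ hr
      rintro _ ⟨X, hX, rfl⟩
      refine (comm_closure ?_ hq).symm
      rintro _ ⟨Y, hY, rfl⟩
      by_cases hXY : X = Y
      · rw [hXY]
        exact Commute.refl _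
      · exact pz_comm (hJ hX hY hXY)
    exact ((a1.pow_pow _ _).mul_right ((a2 T _ (hp U)).pow_left _).inv_right).mul_left
      ((((a2 U _ (hp T)).symm.pow_right _).inv_left).mul_right (a3 _ (hp T) _ (hp U)).inv_inv)
  exact ⟨{
    g := y
    comm := by
      intro T U h
      apply Subtype.ext
      show (y T : Artin M) * (y U : Artin M) = (y U : Artin M) * (y T : Artin M)
      rw [hy, hy]
      have h1 : Commute (yy T : Artin M) (yy U : Artin M) := (hcomm T U h).map (toCox M).ker.subtype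
      exact h1.pow_pow _ _
    φ := fun T => (pk T.1).comp (Subgroup.inclusion inf_le_right)
    self := by
      intro T h
      rw [MonoidHom.comp_apply, hval, if_pos rfl] at h
      have h2 : (k T : ℤ) * ((l T : ℤ) * (mat M).det) = 0 := by
        have := congrArg Multiplicative.toAdd h
        rwa [toAdd_ofAdd, toAdd_one] at this
      rcases mul_eq_zero.1 h2 with h3 | h3
      · rw [Nat.cast_eq_zero] at h3
        have := hk T
        omega
      · rcases mul_eq_zero.1 h3 with h4 | h4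
        · rw [Nat.cast_eq_zero] at h4
          have := hl T
          omega
        · exact mat_det h4
    other := by
      intro T U hTU
      rw [MonoidHom.comp_apply, hval, if_neg fun e => hTU (Subtype.ext e), mul_zero, mul_zero, ofAdd_zero] }⟩

/-- the value of a character at a positive word -/
theorem chi_word (χ : Artin M →* Multiplicative ℤ) {T : Finset B} (hT : ∀ s ∈ T, 0 < Multiplicative.toAdd (χ (Artin.gen M s)))
    (ω : List T) (hω : ω ≠ []) : 0 < Multiplicative.toAdd (χ (incA M T (ω.map (Artin.gen (sub M T))).prod)) := by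
  have key : ∀ ω : List T, 0 ≤ Multiplicative.toAdd (χ (incA M T (ω.map (Artin.gen (sub M T))).prod)) ∧
      (ω ≠ [] → 0 < Multiplicative.toAdd (χ (incA M T (ω.map (Artin.gen (sub M T))).prod))) := by
    intro ω
    induction ω with
    | nil => simp
    | cons i ω ih =>
      rw [List.map_cons, List.prod_cons, map_mul, map_mul, toAdd_mul, incA_gen]
      have := hT i i.2
      exact ⟨by linarith [ih.1], fun _ => by linarith [ih.1]⟩
  exact (key ω).2 hω

theorem chi_zz (χ : Artin M →* Multiplicative ℤ) (T : IS M)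
    (hT : ∀ s ∈ T.1, 0 < Multiplicative.toAdd (χ (Artin.gen M s))) : χ (zz T) ≠ 1 := by
  obtain ⟨ω, hω⟩ := zz_word T
  have hne : ω ≠ [] := by
    rintro rfl
    have h1 := fr_pos T
    rw [hω] at h1
    simp at h1
  intro h
  have h2 := chi_word χ hT ω hne
  rw [← hω, h] at h2
  simp at h2

/-- the central element of a generator is a power of the generator -/
theorem zz_single {T : IS M} {s : B} (hT : T.1 = {s}) : ∃ m : ℕ, 0 < m ∧ zz T = Artin.gen M s ^ m := by
  obtain ⟨ω, hω⟩ := zz_word T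
  have hne : ω ≠ [] := by
    rintro rfl
    have h1 := fr_pos T
    rw [hω] at h1
    simp at h1
  have hsing : ∀ x ∈ T.1, x = s := by
    intro x hx
    rw [hT, Finset.mem_singleton] at hx
    exact hx
  have key : ∀ ω : List T.1, incA M T.1 (ω.map (Artin.gen (sub M T.1))).prod = Artin.gen M s ^ ω.length := by
    intro ω
    induction ω with
    | nil => simp
    | cons i ω ih =>
      have hi : (i : B) = s := hsing i i.2
      rw [List.map_cons, List.prod_cons, map_mul, ih, incA_gen, hi, List.length_cons, pow_succ']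
  exact ⟨ω.length, List.length_pos_iff.2 hne, by rw [hω, key]⟩

/-- the vertex of a generator -/
def sv (M : CoxeterMatrix B) (s : B) : IS M := ⟨{s}, irr_singleton s, sph_singleton s⟩

/-- the vertices of the generators of `J` -/
noncomputable def sJ (M : CoxeterMatrix B) (J : Finset B) : Finset (IS M) := J.image (sv M)

theorem mem_sJ {J : Finset B} {T : IS M} : T ∈ sJ M J ↔ ∃ s ∈ J, T.1 = {s} := by
  unfold sJ
  rw [Finset.mem_image]
  constructor
  · rintro ⟨s, hs, rfl⟩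
    exact ⟨s, hs, rfl⟩
  · rintro ⟨s, hs, h⟩
    exact ⟨s, hs, Subtype.ext h.symm⟩

/-- the generators of `J` commute -/
def PC (M : CoxeterMatrix B) (J : Finset B) : Prop := ∀ s ∈ J, ∀ t ∈ J, s ≠ t → M s t = 2

theorem sJ_clique {J : Finset B} (hJ : PC M J) : (LO M).IsClique (sJ M J : Set (IS M)) := by
  intro T hT U hU hTU
  obtain ⟨s, hs, hT⟩ := mem_sJ.1 (Finset.mem_coe.1 hT)
  obtain ⟨t, ht, hU⟩ := mem_sJ.1 (Finset.mem_coe.1 hU)
  refine ⟨hTU, Or.inr (Or.inr ?_)⟩
  intro a ha b hb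
  rw [hT, Finset.mem_singleton] at ha
  rw [hU, Finset.mem_singleton] at hb
  subst ha hb
  exact hJ _ hs _ ht fun e => hTU (Subtype.ext (by rw [hT, hU, e]))

/-- a vertex of the link has an element which is not in `J` -/
theorem lkS_exists {J : Finset B} (hJ : PC M J) {T : IS M} (hT : T ∈ lkS M (sJ M J)) : ∃ x ∈ T.1, x ∉ J := by
  by_contra hcon
  push Not at hcon
  obtain ⟨y, hy⟩ := T.2.1.1
  have h1 : T.1 = {y} := by
    by_contra h2
    obtain ⟨i, hi, j, hj, hji, hM⟩ := T.2.1.2 {y} (Finset.singleton_subset_iff.2 hy) (Finset.singleton_nonempty y)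
      (Ne.symm h2)
    rw [Finset.mem_singleton] at hi hji
    subst hi
    exact hM (hJ _ (hcon _ hy) _ (hcon _ hj) (Ne.symm hji))
  exact (LO M).loopless.irrefl T (hT T (mem_sJ.2 ⟨y, hcon y hy, h1⟩))

/-- a nonempty `σ` which is not in `J` gives a vertex of the link such that all others are inside or orthogonal -/
theorem exists_apex_link {J σ : Finset B} (hd : Disjoint J σ) (hσ : σ.Nonempty) (hs : Sph M (J ∪ σ)) :
    ∃ C : IS M, C ∈ lkS M (sJ M J) ∧ C.1 ⊆ J ∪ σ ∧ ∀ T : IS M, T.1 ⊆ J ∪ σ → T.1 ⊆ C.1 ∨ Orth M T.1 C.1 := by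
  classical
  obtain ⟨a, ha⟩ := hσ
  obtain ⟨C, hC, hmax⟩ := Finset.exists_max_image ((J ∪ σ).powerset.filter fun C => Irr M C ∧ a ∈ C) Finset.card
    ⟨{a}, Finset.mem_filter.2 ⟨Finset.mem_powerset.2 (Finset.singleton_subset_iff.2 (Finset.mem_union_right _ ha)),
      irr_singleton a, Finset.mem_singleton_self a⟩⟩
  rw [Finset.mem_filter, Finset.mem_powerset] at hC
  obtain ⟨hC1, hC2, hC3⟩ := hC
  have key : ∀ T : Finset B, Irr M T → T ⊆ J ∪ σ → T ⊆ C ∨ Orth M T C := by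
    intro T hT hTs
    by_contra hcon
    push Not at hcon
    obtain ⟨h6, h7⟩ := hcon
    have h8 := hmax (T ∪ C) (Finset.mem_filter.2 ⟨Finset.mem_powerset.2 (Finset.union_subset hTs hC1),
      hT.union hC2 h7, Finset.mem_union_right _ hC3⟩)
    have h9 : C = T ∪ C := Finset.eq_of_subset_of_card_le Finset.subset_union_right h8
    exact h6 (by rw [h9]; exact Finset.subset_union_left)
  refine ⟨⟨C, hC2, hs.mono hC1⟩, fun U hU => ?_, hC1, fun T hT => key T.1 T.2.1 hT⟩
  obtain ⟨s, hs, hU'⟩ := mem_sJ.1 hU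
  refine ⟨fun e => ?_, ?_⟩
  · have h1 : a ∈ ({s} : Finset B) := by
      rw [← hU', e]; exact hC3
    rw [Finset.mem_singleton] at h1
    exact Finset.disjoint_left.1 hd hs (h1 ▸ ha)
  · rcases key {s} (irr_singleton s) (Finset.singleton_subset_iff.2 (Finset.mem_union_left _ hs)) with h1 | h1
    · exact Or.inl (by rw [hU']; exact h1)
    · exact Or.inr (Or.inr (by rw [hU']; exact h1))

/-- the carrier of the link of a commuting set of generators -/
theorem exists_carrier_link {J : Finset B} (hJ : PC M J) (U : Finset B)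
    (hne : Nonempty {T : lkS M (sJ M J) | T.1.1 ⊆ J ∪ U}) :
    ∃ (c : Finset B → {T : lkS M (sJ M J) | T.1.1 ⊆ J ∪ U}) (π : {T : lkS M (sJ M J) | T.1.1 ⊆ J ∪ U} → B),
      ∀ [Fintype (lkS M (sJ M J))],
      Nonempty (Carrier (((LO M).induce (lkS M (sJ M J))).induce {T | T.1.1 ⊆ J ∪ U})
        (fun σ => Disjoint J σ ∧ σ ⊆ U ∧ Sph M (J ∪ σ)) c π) := by
  classical
  obtain ⟨d⟩ := hne
  have hex : ∀ σ : Finset B, ∃ c : {T : lkS M (sJ M J) | T.1.1 ⊆ J ∪ U},
      (Disjoint J σ ∧ σ ⊆ U ∧ Sph M (J ∪ σ)) → σ ≠ ∅ →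
      c.1.1.1 ⊆ J ∪ σ ∧ ∀ T : IS M, T.1 ⊆ J ∪ σ → T.1 ⊆ c.1.1.1 ∨ Orth M T.1 c.1.1.1 := by
    intro σ
    by_cases h : (Disjoint J σ ∧ σ ⊆ U ∧ Sph M (J ∪ σ)) ∧ σ ≠ ∅
    · obtain ⟨⟨h1, h2, h3⟩, h4⟩ := h
      obtain ⟨C, hC1, hC2, hC3⟩ := exists_apex_link h1 (Finset.nonempty_iff_ne_empty.2 h4) h3
      exact ⟨⟨⟨C, hC1⟩, hC2.trans (Finset.union_subset_union_right h2)⟩, fun _ _ => ⟨hC2, hC3⟩⟩
    · exact ⟨d, fun h1 h2 => absurd ⟨h1, h2⟩ h⟩
  choose c hc using hex
  have hx : ∀ T : lkS M (sJ M J), ∃ x ∈ T.1.1, x ∉ J := fun T => lkS_exists hJ T.2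
  refine ⟨c, fun T => (hx T.1).choose, ?_⟩
  intro _
  refine ⟨{
    car := fun σ T => T.1.1.1 ⊆ J ∪ σ
    down := fun σ τ h h2 => ⟨Finset.disjoint_of_subset_right h h2.1, h.trans h2.2.1,
      h2.2.2.mono (Finset.union_subset_union_right h)⟩
    mono := fun σ τ x h h2 => h2.trans (Finset.union_subset_union_right h)
    mem := fun σ h h2 => (hc σ h h2).1
    adj := ?_
    map := ?_
    clique := ?_ }⟩
  · intro σ h h2 T hT hne
    refine ⟨fun e => hne (Subtype.ext (Subtype.ext e.symm)), ?_⟩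
    rcases (hc σ h h2).2 T.1.1 hT with h3 | h3
    · exact Or.inr (Or.inl h3)
    · exact Or.inr (Or.inr h3.symm)
  · intro σ T h
    have h1 := (hx T.1).choose_spec
    exact (Finset.mem_union.1 (h h1.1)).resolve_left h1.2
  · intro N hN
    obtain ⟨N', hN'⟩ : ∃ N' : Finset (IS M), N' = N.image fun T => T.1.1 := ⟨_, rfl⟩
    have h1 : (LO M).IsClique ((sJ M J ∪ N' : Finset (IS M)) : Set (IS M)) := by
      intro a ha b hb hab
      rw [Finset.mem_coe, Finset.mem_union, hN', Finset.mem_image] at ha hb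
      rcases ha with ha | ⟨a', ha', rfl⟩ <;> rcases hb with hb | ⟨b', hb', rfl⟩
      · exact sJ_clique hJ ha hb hab
      · exact b'.1.2 a ha
      · exact (a'.1.2 b hb).symm
      · exact hN (Finset.mem_coe.2 ha') (Finset.mem_coe.2 hb') fun e => hab (by rw [e])
    refine ⟨?_, ?_, (sph_biUnion h1).mono ?_⟩
    · rw [Finset.disjoint_left]
      intro x hxJ hxN
      obtain ⟨T, _, rfl⟩ := Finset.mem_image.1 hxN
      exact (hx T.1).choose_spec.2 hxJ
    · intro i hi
      obtain ⟨T, _, rfl⟩ := Finset.mem_image.1 hi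
      exact (Finset.mem_union.1 (T.2 (hx T.1).choose_spec.1)).resolve_left (hx T.1).choose_spec.2
    · intro i hi
      rcases Finset.mem_union.1 hi with h2 | h2
      · exact Finset.mem_biUnion.2 ⟨sv M i,
          Finset.mem_union_left _ (mem_sJ.2 ⟨i, h2, rfl⟩), Finset.mem_singleton_self i⟩
      · obtain ⟨T, hT, rfl⟩ := Finset.mem_image.1 h2
        exact Finset.mem_biUnion.2 ⟨T.1.1, Finset.mem_union_right _ (by
          rw [hN']; exact Finset.mem_image_of_mem _ hT), (hx T.1).choose_spec.1⟩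

/-- powers of the elements generated by commuting generators -/
theorem pow_mem_pz {J : Finset B} (hJ : PC M J) {x : Artin M} (hx : x ∈ Subgroup.closure (Artin.gen M '' (J : Set B))) :
    ∃ m : ℕ, 0 < m ∧ ∃ p ∈ Subgroup.closure (pz '' (sJ M J : Set (IS M))), (p : Artin M) = x ^ m := by
  have hcom : ∀ y ∈ Subgroup.closure (Artin.gen M '' (J : Set B)), ∀ z ∈ Subgroup.closure (Artin.gen M '' (J : Set B)),
      Commute y z := by
    intro y hy z hz
    refine comm_closure ?_ hz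
    rintro _ ⟨s, hs, rfl⟩
    refine (comm_closure ?_ hy).symm
    rintro _ ⟨t, ht, rfl⟩
    by_cases hst : s = t
    · rw [hst]
    · have h1 := Artin.rel (M := M) s t
      rw [hJ s hs t ht hst, alt_two, alt_two] at h1
      exact h1
  induction hx using Subgroup.closure_induction with
  | mem x hx =>
    obtain ⟨s, hs, rfl⟩ := hx
    obtain ⟨m, hm, h⟩ := zz_single (M := M) (T := sv M s) (s := s) rfl
    exact ⟨m, hm, pz (sv M s), Subgroup.subset_closure ⟨sv M s, Finset.mem_coe.2 (mem_sJ.2 ⟨s, hs, rfl⟩), rfl⟩, h⟩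
  | one => exact ⟨1, one_pos, 1, one_mem _, by simp⟩
  | mul x y hx hy ihx ihy =>
    obtain ⟨m, hm, p, hp, hpx⟩ := ihx
    obtain ⟨l, hl, q, hq, hqy⟩ := ihy
    refine ⟨m * l, Nat.mul_pos hm hl, p ^ l * q ^ m, mul_mem (pow_mem hp _) (pow_mem hq _), ?_⟩
    rw [Subgroup.coe_mul, Subgroup.coe_pow, Subgroup.coe_pow, hpx, hqy, (hcom x hx y hy).mul_pow, ← pow_mul, ← pow_mul,
      mul_comm l m]
  | inv x hx ihx =>
    obtain ⟨m, hm, p, hp, hpx⟩ := ihx
    exact ⟨m, hm, p⁻¹, inv_mem hp, by rw [Subgroup.coe_inv, hpx, inv_pow]⟩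

/-- **The vanishing theorem for kernels.** -/
theorem artin_kernel (M : CoxeterMatrix B) {Q : Type} [Group Q] (χ : Artin M →* Q) (H : Subgroup (Artin M))
    (hH : BigK χ H) (Γ : Type) [Group Γ] (f : H →* Γ) (hf : Function.Injective f) {n i : ℕ} (ha : Acts n Γ)
    (hi : n < 2 * i) (J : Finset B) (hJ : PC M J)
    (hsp : ∀ x, toCox M x = 1 → ∃ k : ℕ, 0 < k ∧ ∃ y ∈ Subgroup.closure (Artin.gen M '' (J : Set B)), χ x ^ k = χ y)
    (U : Finset B) : AcyC (fun σ => Disjoint J σ ∧ σ ⊆ U ∧ Sph M (J ∪ σ)) i := by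
  classical
  have ha' : Acts n (H ⊓ (toCox M).ker : Subgroup (Artin M)) := by
    refine ha.of_hom (f.comp (Subgroup.inclusion inf_le_left)) ?_
    exact hf.comp (Subgroup.inclusion_injective _)
  obtain ⟨T⟩ := toriK χ (sJ M J) (sJ_clique hJ) (fun T _ => by
    obtain ⟨k, hk, y, hy, h1⟩ := hsp _ (zz_ker T)
    obtain ⟨m, hm, p, hp, h2⟩ := pow_mem_pz hJ hy
    exact ⟨k * m, Nat.mul_pos hk hm, p, hp, by rw [h2, pow_mul, h1, map_pow]⟩) H hH
  by_cases hne : Nonempty {T : lkS M (sJ M J) | T.1.1 ⊆ J ∪ U}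
  · obtain ⟨c, π, hC⟩ := exists_carrier_link hJ U hne
    obtain ⟨C⟩ := hC
    refine acyC_of_acy C ?_
    exact (artin_sub T ha' hi {T | T.1.1 ⊆ J ∪ U}).1
  · intro z hz _
    have h0 : z = 0 := by
      funext σ
      by_contra h
      obtain ⟨⟨h1, h2, h3⟩, h4⟩ := hz σ h
      have h5 : σ.Nonempty := by
        rw [← Finset.card_pos]; omega
      obtain ⟨C, hC1, hC2, _⟩ := exists_apex_link h1 h5 h3
      exact hne ⟨⟨⟨C, hC1⟩, hC2.trans (Finset.union_subset_union_right h2)⟩⟩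
    refine ⟨0, fun σ h => absurd rfl h, fun ρ => ?_⟩
    rw [h0]
    exact Finset.sum_eq_zero fun _ _ => rfl

/-- the component of an element -/
theorem exists_comp {σ : Finset B} {a : B} (ha : a ∈ σ) :
    ∃ C ⊆ σ, Irr M C ∧ a ∈ C ∧ ∀ T : Finset B, Irr M T → T ⊆ σ → T ⊆ C ∨ Orth M T C := by
  classical
  obtain ⟨C, hC, hmax⟩ := Finset.exists_max_image (σ.powerset.filter fun C => Irr M C ∧ a ∈ C) Finset.card
    ⟨{a}, Finset.mem_filter.2 ⟨Finset.mem_powerset.2 (Finset.singleton_subset_iff.2 ha),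
      irr_singleton a, Finset.mem_singleton_self a⟩⟩
  rw [Finset.mem_filter, Finset.mem_powerset] at hC
  obtain ⟨hC1, hC2, hC3⟩ := hC
  refine ⟨C, hC1, hC2, hC3, ?_⟩
  intro T hT hTs
  by_contra hcon
  push Not at hcon
  obtain ⟨h6, h7⟩ := hcon
  have h8 := hmax (T ∪ C) (Finset.mem_filter.2 ⟨Finset.mem_powerset.2 (Finset.union_subset hTs hC1),
    hT.union hC2 h7, Finset.mem_union_right _ hC3⟩)
  have h9 : C = T ∪ C := Finset.eq_of_subset_of_card_le Finset.subset_union_right h8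
  exact h6 (by rw [h9]; exact Finset.subset_union_left)

/-- a set of proper subsets of an irreducible set which are nested or orthogonal does not cover it -/
theorem not_cover {N : Finset (IS M)} (hN : (LO M).IsClique (N : Set (IS M))) {T₀ : Finset B} (hT₀ : Irr M T₀)
    (h : ∀ T ∈ N, T.1 ⊆ T₀ → T.1 ≠ T₀) : ¬ T₀ ⊆ (N.filter fun T => T.1 ⊆ T₀).biUnion fun T => T.1 := by
  classical
  intro hcov
  obtain ⟨a, ha⟩ := hT₀.1
  obtain ⟨T₁, hT₁, _⟩ := Finset.mem_biUnion.1 (hcov ha)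
  obtain ⟨T, hT, hmax⟩ := Finset.exists_max_image (N.filter fun T => T.1 ⊆ T₀) (fun T => T.1.card) ⟨T₁, hT₁⟩
  rw [Finset.mem_filter] at hT
  obtain ⟨i, hi, j, hj, hji, hM⟩ := hT₀.2 T.1 hT.2 T.2.1.1 (h T hT.1 hT.2)
  obtain ⟨U, hU, hjU⟩ := Finset.mem_biUnion.1 (hcov hj)
  rw [Finset.mem_filter] at hU
  have hne : T ≠ U := fun e => hji (e ▸ hjU)
  rcases (hN (Finset.mem_coe.2 hT.1) (Finset.mem_coe.2 hU.1) hne).2 with h1 | h1 | h1
  · have h2 : T.1 = U.1 := Finset.eq_of_subset_of_card_le h1 (hmax U (Finset.mem_filter.2 hU))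
    exact hne (Subtype.ext h2)
  · exact hji (h1 hjU)
  · exact hM (h1 i hi j hjU)

/-- the carrier of the link of an irreducible spherical subset -/
theorem exists_carrier_irr (T₀ : IS M) (hne : Nonempty (lkS M {T₀})) :
    ∃ (c : Finset B → lkS M {T₀}) (π : lkS M {T₀} → B), ∀ [Fintype (lkS M {T₀})],
      Nonempty (Carrier ((LO M).induce (lkS M {T₀})) (fun σ => ¬ T₀.1 ⊆ σ ∧ Sph M (T₀.1 ∪ σ)) c π) := by
  classical
  obtain ⟨d⟩ := hne
  have hadj : ∀ T : lkS M {T₀}, (LO M).Adj T₀ T.1 := fun T => T.2 T₀ (Finset.mem_singleton_self _)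
  have hmk : ∀ C : IS M, (LO M).Adj T₀ C → C ∈ lkS M {T₀} := fun C hC U hU => by
    rw [Finset.mem_singleton.1 hU]; exact hC
  -- an element
  have hx : ∀ T : lkS M {T₀}, ∃ x ∈ T.1.1, x ∈ T₀.1 → T.1.1 ⊆ T₀.1 := by
    intro T
    by_cases h : T.1.1 ⊆ T₀.1
    · obtain ⟨x, hx⟩ := T.1.2.1.1
      exact ⟨x, hx, fun _ => h⟩
    · obtain ⟨x, hx, hx'⟩ := Finset.not_subset.1 h
      exact ⟨x, hx, fun h2 => absurd h2 hx'⟩
  have hex : ∀ σ : Finset B, ∃ c : lkS M {T₀}, (¬ T₀.1 ⊆ σ ∧ Sph M (T₀.1 ∪ σ)) → σ ≠ ∅ →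
      (c.1.1 ⊆ T₀.1 ∪ σ ∧ (c.1.1 ⊆ T₀.1 → c.1.1 ⊆ σ)) ∧
      ∀ T : IS M, T.1 ⊆ T₀.1 ∪ σ → (T.1 ⊆ T₀.1 → T.1 ⊆ σ) → T.1 ⊆ c.1.1 ∨ Orth M T.1 c.1.1 := by
    intro σ
    by_cases h : (¬ T₀.1 ⊆ σ ∧ Sph M (T₀.1 ∪ σ)) ∧ σ ≠ ∅
    swap
    · exact ⟨d, fun h1 h2 => absurd ⟨h1, h2⟩ h⟩
    obtain ⟨⟨h1, h2⟩, h3⟩ := h
    by_cases h4 : σ ⊆ T₀.1
    · obtain ⟨a, ha⟩ := Finset.nonempty_iff_ne_empty.2 h3
      obtain ⟨C, hC1, hC2, hC3, hC4⟩ := exists_comp (M := M) ha
      have hCT : C ≠ T₀.1 := fun e => h1 (e ▸ hC1)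
      refine ⟨⟨⟨C, hC2, h2.mono (hC1.trans Finset.subset_union_right)⟩, hmk _ ⟨fun e => hCT (by rw [e]), ?_⟩⟩,
        fun _ _ => ⟨⟨hC1.trans Finset.subset_union_right, fun _ => hC1⟩, fun T hT hT2 => ?_⟩⟩
      · exact Or.inr (Or.inl (hC1.trans h4))
      · exact hC4 T.1 T.2.1 (hT2 (hT.trans (Finset.union_subset (Finset.Subset.refl _) h4)))
    · obtain ⟨a, ha, ha'⟩ := Finset.not_subset.1 h4
      obtain ⟨C, hC1, hC2, hC3, hC4⟩ := exists_comp (M := M) (Finset.mem_union_right T₀.1 ha)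
      refine ⟨⟨⟨C, hC2, h2.mono hC1⟩, hmk _ ⟨fun e => ha' (by rw [e]; exact hC3), ?_⟩⟩,
        fun _ _ => ⟨⟨hC1, fun h5 => absurd (h5 hC3) ha'⟩, fun T hT _ => hC4 T.1 T.2.1 hT⟩⟩
      rcases hC4 T₀.1 T₀.2.1 Finset.subset_union_left with h5 | h5
      · exact Or.inl h5
      · exact Or.inr (Or.inr h5)
  choose c hc using hex
  refine ⟨c, fun T => (hx T).choose, ?_⟩
  intro _
  refine ⟨{
    car := fun σ T => T.1.1 ⊆ T₀.1 ∪ σ ∧ (T.1.1 ⊆ T₀.1 → T.1.1 ⊆ σ)
    down := fun σ τ h h2 => ⟨fun h3 => h2.1 (h3.trans h), h2.2.mono (Finset.union_subset_union_right h)⟩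
    mono := fun σ τ x h h2 => ⟨h2.1.trans (Finset.union_subset_union_right h), fun h3 => (h2.2 h3).trans h⟩
    mem := fun σ h h2 => (hc σ h h2).1
    adj := ?_
    map := ?_
    clique := ?_ }⟩
  · intro σ h h2 T hT hne
    refine ⟨fun e => hne (Subtype.ext e.symm), ?_⟩
    rcases (hc σ h h2).2 T.1 hT.1 hT.2 with h3 | h3
    · exact Or.inr (Or.inl h3)
    · exact Or.inr (Or.inr h3.symm)
  · intro σ T h
    have h1 := (hx T).choose_spec
    rcases Finset.mem_union.1 (h.1 h1.1) with h2 | h2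
    · exact h.2 (h1.2 h2) h1.1
    · exact h2
  · intro N hN
    obtain ⟨N', hN'⟩ : ∃ N' : Finset (IS M), N' = N.image fun T => T.1 := ⟨_, rfl⟩
    have h1 : (LO M).IsClique ((insert T₀ N' : Finset (IS M)) : Set (IS M)) := by
      intro a ha b hb hab
      rw [Finset.mem_coe, Finset.mem_insert, hN', Finset.mem_image] at ha hb
      rcases ha with rfl | ⟨a', ha', rfl⟩ <;> rcases hb with rfl | ⟨b', hb', rfl⟩
      · exact absurd rfl hab
      · exact hadj b'
      · exact (hadj a').symm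
      · exact hN (Finset.mem_coe.2 ha') (Finset.mem_coe.2 hb') fun e => hab (by rw [e])
    have h2 : (LO M).IsClique (N' : Set (IS M)) := fun a ha b hb hab =>
      h1 (Finset.mem_coe.2 (Finset.mem_insert_of_mem ha)) (Finset.mem_coe.2 (Finset.mem_insert_of_mem hb)) hab
    refine ⟨?_, (sph_biUnion h1).mono ?_⟩
    · intro h3
      refine not_cover h2 T₀.2.1 ?_ ?_
      · intro T hT _ he
        rw [hN'] at hT
        obtain ⟨T', _, rfl⟩ := Finset.mem_image.1 hT
        exact (hadj T').1 (Subtype.ext he.symm)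
      · intro i hi
        obtain ⟨T, hT, hTi⟩ := Finset.mem_image.1 (h3 hi)
        have h4 := (hx T).choose_spec
        have h5 : T.1.1 ⊆ T₀.1 := h4.2 (by rw [hTi]; exact hi)
        refine Finset.mem_biUnion.2 ⟨T.1, Finset.mem_filter.2 ⟨by rw [hN']; exact Finset.mem_image_of_mem _ hT, h5⟩, ?_⟩
        rw [← hTi]
        exact h4.1
    · intro i hi
      rcases Finset.mem_union.1 hi with h2 | h2
      · exact Finset.mem_biUnion.2 ⟨T₀, Finset.mem_insert_self _ _, h2⟩
      · obtain ⟨T, hT, rfl⟩ := Finset.mem_image.1 h2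
        exact Finset.mem_biUnion.2 ⟨T.1, Finset.mem_insert_of_mem (by
          rw [hN']; exact Finset.mem_image_of_mem _ hT), (hx T).choose_spec.1⟩

/-- **The links of the irreducible spherical subsets.** -/
theorem artin_kernel_irr (M : CoxeterMatrix B) (χ : Artin M →* Multiplicative ℤ) (H : Subgroup (Artin M))
    (hH : BigK χ H) (Γ : Type) [Group Γ] (f : H →* Γ) (hf : Function.Injective f) {n i : ℕ} (ha : Acts n Γ)
    (hi : n < 2 * i) (T₀ : Finset B) (hI : Irr M T₀) (hS : Sph M T₀)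
    (hT₀ : ∀ s ∈ T₀, 0 < Multiplicative.toAdd (χ (Artin.gen M s))) :
    AcyC (fun σ => ¬ T₀ ⊆ σ ∧ Sph M (T₀ ∪ σ)) i := by
  classical
  have ha' : Acts n (H ⊓ (toCox M).ker : Subgroup (Artin M)) := by
    refine ha.of_hom (f.comp (Subgroup.inclusion inf_le_left)) ?_
    exact hf.comp (Subgroup.inclusion_injective _)
  obtain ⟨V, hV⟩ : ∃ V : IS M, V.1 = T₀ := ⟨⟨T₀, hI, hS⟩, rfl⟩
  subst hV
  have h0 := chi_zz χ V hT₀
  have h1 : Multiplicative.toAdd (χ (zz V)) ≠ 0 := fun h => h0 (Multiplicative.toAdd.injective h)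
  obtain ⟨T⟩ := toriK χ {V} (by rw [Finset.coe_singleton]; exact Set.pairwise_singleton _ _) (fun T _ => by
    refine ⟨(Multiplicative.toAdd (χ (zz V))).natAbs, Int.natAbs_pos.2 h1,
      pz V ^ ((Multiplicative.toAdd (χ (zz V))).sign * Multiplicative.toAdd (χ (zz T))),
      Subgroup.zpow_mem _ (Subgroup.subset_closure (Set.mem_image_of_mem pz (by simp))) _, ?_⟩
    rw [Subgroup.coe_zpow, map_zpow]
    apply Multiplicative.toAdd.injective
    show Multiplicative.toAdd (χ (zz T) ^ _) = Multiplicative.toAdd (χ (zz V) ^ _)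
    rw [toAdd_pow, toAdd_zpow, nsmul_eq_mul, smul_eq_mul, Int.natCast_natAbs, ← Int.sign_mul_self_eq_abs]
    ring) H hH
  by_cases hne : Nonempty (lkS M {V})
  · obtain ⟨c, π, hC⟩ := exists_carrier_irr V hne
    obtain ⟨C⟩ := hC
    exact acyC_of_acy C (artin T ha' hi).1
  · intro z hz _
    have h0 : z = 0 := by
      funext σ
      by_contra h
      obtain ⟨⟨h1, h2⟩, h4⟩ := hz σ h
      have h5 : σ.Nonempty := by
        rw [← Finset.card_pos]; omega
      obtain ⟨a, ha⟩ := h5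
      refine hne ?_
      by_cases h6 : σ ⊆ V.1
      · have hne2 : (sv M a) ≠ V := fun e => h1 (by
          rw [← e]
          exact Finset.singleton_subset_iff.2 ha)
        refine ⟨⟨sv M a, fun U hU => ?_⟩⟩
        rw [Finset.mem_singleton.1 hU]
        exact ⟨hne2.symm, Or.inr (Or.inl (Finset.singleton_subset_iff.2 (h6 ha)))⟩
      · obtain ⟨b, hb, hb'⟩ := Finset.not_subset.1 h6
        obtain ⟨C, hC1, hC2, hC3, hC4⟩ := exists_comp (M := M) (Finset.mem_union_right V.1 hb)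
        refine ⟨⟨⟨C, hC2, h2.mono hC1⟩, fun U hU => ?_⟩⟩
        rw [Finset.mem_singleton.1 hU]
        refine ⟨fun e => hb' (by rw [e]; exact hC3), ?_⟩
        rcases hC4 V.1 V.2.1 Finset.subset_union_left with h5 | h5
        · exact Or.inl h5
        · exact Or.inr (Or.inr h5)
    refine ⟨0, fun σ h => absurd rfl h, fun ρ => ?_⟩
    rw [h0]
    exact Finset.sum_eq_zero fun _ _ => rfl

end Pool.Agent.H815.AR
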