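import Pool.Agent.H815.AR.Defs
import Pool.Graph.R_seed8.Helper741.Garside

/-!
# Special subgroups of Coxeter groups and of Artin groups
-/

set_option autoImplicit false
set_option linter.unusedSectionVars false

namespace Pool.Agent.H815.AR

open Pool.Agent.Helper741 Pool.Agent.H815.TW

variable {B : Type} (M : CoxeterMatrix B)

/-- the submatrix -/
def sub (T : Finset B) : CoxeterMatrix T where
  M := Matrix.of fun i j => M i j
  isSymm := by
    ext i j
    exact M.symmetric _ _
  diagonal i := M.diagonal _
  off_diagonal i j h := M.off_diagonal _ _ fun e => h (Subtype.ext e)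

theorem sub_apply (T : Finset B) (i j : T) : (sub M T) i j = M i j := rfl

/-- the Coxeter system of the Coxeter group -/
abbrev cs : CoxeterSystem M M.Group := M.toCoxeterSystem

theorem toCox_eq : toCox M = Artin.toCox (cs M) := rfl

theorem inc_liftable (T : Finset B) : (sub M T).IsLiftable fun i => M.simple i := by
  intro i j
  exact (cs M).simple_mul_simple_pow i j

/-- the map of Coxeter groups -/
noncomputable def inc (T : Finset B) : (sub M T).Group →* M.Group :=
  (cs (sub M T)).lift ⟨fun i => M.simple i, inc_liftable M T⟩

@[simp] theorem inc_simple (T : Finset B) (i : T) : inc M T ((sub M T).simple i) = M.simple i :=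
  (cs (sub M T)).lift_apply_simple (inc_liftable M T) i

/-- the map of Artin groups -/
def incA (T : Finset B) : Artin (sub M T) →* Artin M :=
  Artin.lift (fun i => Artin.gen M i) fun i j => Artin.rel (M := M) i j

@[simp] theorem incA_gen (T : Finset B) (i : T) : incA M T (Artin.gen (sub M T) i) = Artin.gen M i :=
  Artin.lift_gen _ _ _

@[simp] theorem toCox_gen (i : B) : toCox M (Artin.gen M i) = M.simple i := Artin.lift_gen _ _ _

theorem toCox_incA (T : Finset B) (x : Artin (sub M T)) : toCox M (incA M T x) = inc M T (toCox (sub M T) x) := by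
  have : (toCox M).comp (incA M T) = (inc M T).comp (toCox (sub M T)) := by
    apply Artin.hom_ext
    intro i
    rw [MonoidHom.comp_apply, MonoidHom.comp_apply, incA_gen, toCox_gen, toCox_gen, inc_simple]
  exact DFunLike.congr_fun this x

theorem closure_le_range (T : Finset B) :
    Subgroup.closure (M.simple '' (T : Set B)) = (inc M T).range := by
  apply le_antisymm
  · rw [Subgroup.closure_le]
    rintro _ ⟨i, hi, rfl⟩
    exact ⟨(sub M T).simple ⟨i, hi⟩, inc_simple M T ⟨i, hi⟩⟩
  · rintro _ ⟨w, rfl⟩
    refine (cs (sub M T)).simple_induction (p := fun w => inc M T w ∈ Subgroup.closure (M.simple '' (T : Set B))) w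
      (fun i => ?_) ?_ ?_
    · rw [show (cs (sub M T)).simple i = (sub M T).simple i from rfl, inc_simple]
      exact Subgroup.subset_closure ⟨i, i.2, rfl⟩
    · rw [map_one]; exact one_mem _
    · intro a b ha hb
      rw [map_mul]; exact mul_mem ha hb

section

variable [Fintype B] [DecidableEq B]

/-- extension by zero -/
noncomputable def ext (T : Finset B) (v : T → ℝ) : B → ℝ := fun b => if h : b ∈ T then v ⟨b, h⟩ else 0

omit [Fintype B] in
theorem ext_mem {T : Finset B} (v : T → ℝ) (i : T) : ext T v i = v i := by
  unfold ext
  rw [dif_pos i.2]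

theorem coroot_apply (i : B) (v : B → ℝ) : coroot M i v = ∑ j, (-2 * cc M i j) * v j := by
  unfold coroot
  rw [LinearMap.sum_apply]
  refine Finset.sum_congr rfl fun j _ => ?_
  rw [LinearMap.smul_apply, LinearMap.proj_apply, smul_eq_mul]

theorem coroot_ext (T : Finset B) (i : T) (v : T → ℝ) : coroot M i (ext T v) = coroot (sub M T) i v := by
  rw [coroot_apply, coroot_apply]
  rw [← Finset.sum_subset (Finset.subset_univ T)]
  · rw [← Finset.sum_coe_sort T]
    refine Finset.sum_congr rfl fun j _ => ?_
    rw [ext_mem]
    rfl
  · intro j _ hj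
    unfold ext
    rw [dif_neg hj, mul_zero]

theorem sg_ext (T : Finset B) (i : T) (v : T → ℝ) : sg M i (ext T v) = ext T (sg (sub M T) i v) := by
  funext b
  rw [sg_apply, coroot_ext, Pi.sub_apply, Pi.smul_apply]
  unfold ext
  by_cases hb : b ∈ T
  · rw [dif_pos hb, dif_pos hb, sg_apply, Pi.sub_apply, Pi.smul_apply]
    congr 2
    unfold ee
    rw [Pi.single_apply, Pi.single_apply]
    by_cases h : b = i
    · rw [if_pos h, if_pos (Subtype.ext h)]
    · rw [if_neg h, if_neg fun e => h (congrArg Subtype.val e)]
  · rw [dif_neg hb, dif_neg hb]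
    have : b ≠ i := fun h => hb (h ▸ i.2)
    unfold ee
    rw [Pi.single_eq_of_ne this, smul_zero, sub_zero]

theorem geo_inc (T : Finset B) (w : (sub M T).Group) (v : T → ℝ) :
    geo (cs M) (inc M T w) (ext T v) = ext T (geo (cs (sub M T)) w v) := by
  revert v
  refine (cs (sub M T)).simple_induction
    (p := fun w => ∀ v, geo (cs M) (inc M T w) (ext T v) = ext T (geo (cs (sub M T)) w v)) w (fun i => ?_) ?_ ?_
  · intro v
    rw [show (cs (sub M T)).simple i = (sub M T).simple i from rfl, inc_simple]
    rw [show (sub M T).simple i = (cs (sub M T)).simple i from rfl, geo_simple]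
    rw [show M.simple (i : B) = (cs M).simple i from rfl, geo_simple, sg_ext]
  · intro v
    rw [map_one, map_one, map_one]; rfl
  · intro a b ha hb v
    rw [map_mul, map_mul, map_mul, Module.End.mul_apply, Module.End.mul_apply, hb, ha]

/-- the special subgroup is the Coxeter group of the submatrix -/
theorem inc_injective (T : Finset B) : Function.Injective (inc M T) := by
  rw [injective_iff_map_eq_one]
  intro w hw
  apply geo_injective (cs (sub M T))
  rw [map_one]
  apply LinearMap.ext
  intro v
  have h1 := geo_inc M T w v
  rw [hw, map_one, Module.End.one_apply] at h1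
  rw [Module.End.one_apply]
  funext i
  have h2 := congrFun h1 i
  rw [ext_mem, ext_mem] at h2
  exact h2.symm

theorem Sph.finite {T : Finset B} (h : Sph M T) : Finite (sub M T).Group := by
  unfold Sph at h
  rw [closure_le_range, MonoidHom.coe_range] at h
  have h2 := h.to_subtype
  exact Finite.of_injective (fun w => (⟨inc M T w, w, rfl⟩ : Set.range (inc M T))) fun a b hab =>
    inc_injective M T (congrArg Subtype.val hab)

/-- the elements of the special subgroup change only the coordinates in `T` -/
theorem geo_inc_apply (T : Finset B) (w : (sub M T).Group) (v : B → ℝ) {j : B} (hj : j ∉ T) :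
    geo (cs M) (inc M T w) v j = v j := by
  revert v
  refine (cs (sub M T)).simple_induction (p := fun w => ∀ v, geo (cs M) (inc M T w) v j = v j) w (fun i => ?_) ?_ ?_
  · intro v
    rw [show (cs (sub M T)).simple i = (sub M T).simple i from rfl, inc_simple]
    rw [show M.simple (i : B) = (cs M).simple i from rfl, geo_simple, sg_apply, Pi.sub_apply, Pi.smul_apply]
    have : j ≠ i := fun h => hj (h ▸ i.2)
    unfold ee
    rw [Pi.single_eq_of_ne this, smul_zero, sub_zero]
  · intro v
    rw [map_one, map_one]; rfl
  · intro a b ha hb v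
    rw [map_mul, map_mul, Module.End.mul_apply, ha, hb]

end

end Pool.Agent.H815.AR
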