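import Pool.Agent.H815.AR.Par

/-!
# Irreducible subsets, reflections with full support, and the central elements
-/

set_option autoImplicit false
set_option linter.unusedSectionVars false

namespace Pool.Agent.H815.AR

open Pool.Agent.Helper741 Pool.Agent.H815.TW

variable {B : Type} (M : CoxeterMatrix B)

/-- `T` is nonempty and is not the union of two nonempty disjoint subsets whose generators commute. -/
def Irr (T : Finset B) : Prop :=
  T.Nonempty ∧ ∀ U ⊆ T, U.Nonempty → U ≠ T → ∃ i ∈ U, ∃ j ∈ T, j ∉ U ∧ M i j ≠ 2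

/-- the generators of `T` commute with those of `U` (and `T`, `U` are disjoint) -/
def Orth (T U : Finset B) : Prop := ∀ i ∈ T, ∀ j ∈ U, M i j = 2

variable {M}

theorem Orth.symm {T U : Finset B} (h : Orth M T U) : Orth M U T := fun i hi j hj => by
  rw [M.symmetric]; exact h j hj i hi

theorem Orth.mono {T T' U U' : Finset B} (h : Orth M T U) (h1 : T' ⊆ T) (h2 : U' ⊆ U) : Orth M T' U' :=
  fun i hi j hj => h i (h1 hi) j (h2 hj)

theorem Orth.not_mem {T U : Finset B} (h : Orth M T U) {i : B} (hi : i ∈ T) : i ∉ U := fun hj => by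
  have := h i hi i hj
  rw [M.diagonal] at this
  omega

section

variable [DecidableEq B]

/-- two connected sets which are not orthogonal have a connected union -/
theorem Irr.union {T U : Finset B} (hT : Irr M T) (hU : Irr M U) (h : ¬ Orth M T U) : Irr M (T ∪ U) := by
  refine ⟨hT.1.mono Finset.subset_union_left, fun X hX hne hXne => ?_⟩
  by_contra hcon
  push Not at hcon
  -- each of `T`, `U` is inside `X` or disjoint from `X`
  have key : ∀ Y : Finset B, Irr M Y → Y ⊆ T ∪ U → Y ⊆ X ∨ Disjoint Y X := by
    intro Y hY hYT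
    by_contra h2
    push Not at h2
    obtain ⟨h3, h4⟩ := h2
    rw [Finset.not_disjoint_iff] at h4
    obtain ⟨a, ha, ha'⟩ := h4
    obtain ⟨i, hi, j, hj, hji, hM⟩ := hY.2 (Y ∩ X) Finset.inter_subset_left ⟨a, Finset.mem_inter.2 ⟨ha, ha'⟩⟩
      fun e => h3 (by rw [← e]; exact Finset.inter_subset_right)
    rw [Finset.mem_inter] at hi hji
    exact hM (hcon i hi.2 j (hYT hj) fun hjX => hji ⟨hj, hjX⟩)
  obtain ⟨i, hi, j, hj, hij⟩ : ∃ i ∈ T, ∃ j ∈ U, M i j ≠ 2 := by
    unfold Orth at h
    push Not at h
    exact h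
  rcases key T hT Finset.subset_union_left with h1 | h1 <;> rcases key U hU Finset.subset_union_right with h2 | h2
  · exact hXne (Finset.Subset.antisymm hX (Finset.union_subset h1 h2))
  · exact hij (hcon i (h1 hi) j (Finset.mem_union_right _ hj) (Finset.disjoint_left.1 h2 hj))
  · refine hij ?_
    rw [M.symmetric]
    exact hcon j (h2 hj) i (Finset.mem_union_left _ hi) (Finset.disjoint_left.1 h1 hi)
  · obtain ⟨a, ha⟩ := hne
    rcases Finset.mem_union.1 (hX ha) with h3 | h3
    · exact Finset.disjoint_left.1 h1 h3 ha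
    · exact Finset.disjoint_left.1 h2 h3 ha

theorem irr_singleton (i : B) : Irr M {i} := by
  refine ⟨Finset.singleton_nonempty i, fun U hU hne hUne => ?_⟩
  rcases Finset.subset_singleton_iff.1 hU with h | h
  · exact absurd h hne.ne_empty
  · exact absurd h hUne

/-- A nonempty set has an irreducible subset such that all others are contained in it or orthogonal to it. -/
theorem exists_apex {σ : Finset B} (h : σ.Nonempty) :
    ∃ c ⊆ σ, Irr M c ∧ ∀ T ⊆ σ, Irr M T → T ⊆ c ∨ Orth M T c := by
  classical
  obtain ⟨a, ha⟩ := h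
  obtain ⟨c, hc, hmax⟩ := Finset.exists_max_image (σ.powerset.filter fun T => Irr M T) Finset.card
    ⟨{a}, Finset.mem_filter.2 ⟨Finset.mem_powerset.2 (Finset.singleton_subset_iff.2 ha), irr_singleton a⟩⟩
  rw [Finset.mem_filter, Finset.mem_powerset] at hc
  refine ⟨c, hc.1, hc.2, fun T hT hI => ?_⟩
  by_contra hcon
  push Not at hcon
  obtain ⟨h1, h2⟩ := hcon
  have h3 := hmax (T ∪ c) (Finset.mem_filter.2 ⟨Finset.mem_powerset.2 (Finset.union_subset hT hc.1), hI.union hc.2 h2⟩)
  have h4 : c = T ∪ c := Finset.eq_of_subset_of_card_le Finset.subset_union_right h3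
  exact h1 (by rw [h4]; exact Finset.subset_union_left)

end

section

variable [Fintype B] [DecidableEq B]

theorem cc_nonneg {i j : B} (h : i ≠ j) : 0 ≤ cc M i j := by
  have := qs_nonneg M h (k := 2)
  by_cases h0 : M i j = 0
  · rw [cc_of_zero M h0]; exact zero_le_one
  · have h2 := two_le_of_ne M h h0
    have h3 : qs (cc M i j) 2 = 2 * cc M i j := by
      rw [show (2 : ℕ) = 0 + 2 from rfl, qs_add_two]
      simp
    have h4 := this (Or.inr h2)
    rw [h3] at h4
    linarith

theorem cc_pos {i j : B} (h : i ≠ j) (h2 : M i j ≠ 2) : 0 < cc M i j := by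
  by_cases h0 : M i j = 0
  · rw [cc_of_zero M h0]; exact zero_lt_one
  · have h1 := two_le_of_ne M h h0
    have h3 : 3 ≤ M i j := by omega
    unfold cc
    apply Real.cos_pos_of_mem_Ioo
    have h4 : (3 : ℝ) ≤ (M i j : ℝ) := by exact_mod_cast h3
    have hpi := Real.pi_pos
    constructor
    · have : 0 ≤ Real.pi / (M i j : ℝ) := by positivity
      linarith
    · rw [div_lt_div_iff₀ (by linarith) (by norm_num)]
      nlinarith

/-- a root with nonnegative coordinates whose support is `T` -/
def Full (M : CoxeterMatrix B) (T : Finset B) (w : M.Group) (i : B) : Prop :=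
  w ∈ (inc M T).range ∧ i ∈ T ∧ (∀ j ∈ T, 0 < geo (cs M) w (ee i) j) ∧ ∀ j ∉ T, geo (cs M) w (ee i) j = 0

theorem range_mono {T U : Finset B} (h : T ⊆ U) : (inc M T).range ≤ (inc M U).range := by
  rw [← closure_le_range, ← closure_le_range]
  exact Subgroup.closure_mono (Set.image_mono (by exact_mod_cast h))

theorem simple_mem {T : Finset B} {i : B} (h : i ∈ T) : M.simple i ∈ (inc M T).range := by
  rw [← closure_le_range]
  exact Subgroup.subset_closure ⟨i, h, rfl⟩

theorem exists_full {T : Finset B} (hT : Irr M T) : ∃ w i, Full M T w i := by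
  classical
  -- a maximal subset which has a root
  obtain ⟨a, ha⟩ := hT.1
  have h0 : Full M {a} 1 a := by
    refine ⟨one_mem _, Finset.mem_singleton_self a, fun j hj => ?_, fun j hj => ?_⟩
    · rw [Finset.mem_singleton] at hj
      subst hj
      rw [map_one, Module.End.one_apply]
      simp [ee]
    · rw [Finset.mem_singleton] at hj
      rw [map_one, Module.End.one_apply]
      simp [ee, hj]
  obtain ⟨U, hU, hmax⟩ := Finset.exists_max_image (T.powerset.filter fun U => ∃ w i, Full M U w i) Finset.card
    ⟨{a}, Finset.mem_filter.2 ⟨Finset.mem_powerset.2 (Finset.singleton_subset_iff.2 ha), 1, a, h0⟩⟩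
  rw [Finset.mem_filter, Finset.mem_powerset] at hU
  obtain ⟨hUT, w, i, hf1, hf2, hf3, hf4⟩ := hU
  by_cases he : U = T
  · subst he
    exact ⟨w, i, hf1, hf2, hf3, hf4⟩
  exfalso
  obtain ⟨k, hk, j, hj, hjU, hM⟩ := hT.2 U hUT ⟨i, hf2⟩ he
  have hneg : coroot M j (geo (cs M) w (ee i)) < 0 := by
    rw [coroot_apply]
    have h1 : ∀ l : B, (-2 * cc M j l) * geo (cs M) w (ee i) l ≤ 0 := by
      intro l
      by_cases hl : l ∈ U
      · have hne : j ≠ l := fun h => hjU (h ▸ hl)
        have := cc_nonneg (M := M) hne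
        have := hf3 l hl
        nlinarith
      · rw [hf4 l hl, mul_zero]
    have h2 : (-2 * cc M j k) * geo (cs M) w (ee i) k < 0 := by
      have hne : j ≠ k := fun h => hjU (h ▸ hk)
      have hM' : M j k ≠ 2 := by rwa [M.symmetric]
      have := cc_pos (M := M) hne hM'
      have := hf3 k hk
      nlinarith
    calc ∑ l, (-2 * cc M j l) * geo (cs M) w (ee i) l
        < ∑ _l : B, (0 : ℝ) := Finset.sum_lt_sum (fun l _ => h1 l) ⟨k, Finset.mem_univ _, h2⟩
      _ = 0 := Finset.sum_const_zero
  have hnew : Full M (insert j U) (M.simple j * w) i := by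
    have hval : ∀ l, geo (cs M) (M.simple j * w) (ee i) l =
        geo (cs M) w (ee i) l - coroot M j (geo (cs M) w (ee i)) * (ee j : B → ℝ) l := by
      intro l
      rw [map_mul, Module.End.mul_apply, show M.simple j = (cs M).simple j from rfl, geo_simple, sg_apply,
        Pi.sub_apply, Pi.smul_apply, smul_eq_mul]
    refine ⟨mul_mem (simple_mem (Finset.mem_insert_self _ _)) (range_mono (Finset.subset_insert _ _) hf1),
      Finset.mem_insert_of_mem hf2, fun l hl => ?_, fun l hl => ?_⟩
    · rw [hval]
      by_cases h1 : l = j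
      · subst h1
        rw [hf4 l hjU]
        simp [ee]
        exact hneg
      · rw [show (ee j : B → ℝ) l = 0 from Pi.single_eq_of_ne h1 _, mul_zero, sub_zero]
        exact hf3 l ((Finset.mem_insert.1 hl).resolve_left h1)
    · rw [hval]
      rw [Finset.mem_insert, not_or] at hl
      rw [hf4 l hl.2, show (ee j : B → ℝ) l = 0 from Pi.single_eq_of_ne hl.1 _, mul_zero, sub_zero]
  have h5 := hmax (insert j U) (Finset.mem_filter.2
    ⟨Finset.mem_powerset.2 (Finset.insert_subset hj hUT), _, _, hnew⟩)
  rw [Finset.card_insert_of_notMem hjU] at h5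
  omega

/-- the reflection of a root with support `T` is in no special subgroup which does not contain `T` -/
theorem Full.subset {T U : Finset B} {w : M.Group} {i : B} (h : Full M T w i)
    (hr : w * M.simple i * w⁻¹ ∈ (inc M U).range) : T ⊆ U := by
  intro j hj
  by_contra hjU
  obtain ⟨u, hu⟩ := hr
  have h1 := geo_inc_apply M U u (geo (cs M) w (ee i)) hjU
  have h2 : geo (cs M) (inc M U u) (geo (cs M) w (ee i)) = - geo (cs M) w (ee i) := by
    rw [hu, map_mul, map_mul, Module.End.mul_apply, Module.End.mul_apply, geo_inv_apply,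
      show M.simple i = (cs M).simple i from rfl, geo_simple, sg_ee_self, map_neg]
  rw [h2, Pi.neg_apply] at h1
  have h3 := h.2.2.1 j hj
  linarith

end

end Pool.Agent.H815.AR
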